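import Pool.Agent.Run7.h691.MI.Base
import Pool.Agent.Run7.h691.GJ.NS

/-!
# The curves `y² = x³ - D² x` over the multiquadratic extensions of `ℚ(i)` that are unramified above `2`
-/

set_option autoImplicit false
set_option linter.unusedVariables false
set_option linter.unusedSectionVars false

open scoped Classical

namespace Pool.Agent.H691.MI

open Finset NumberField IsDedekindDomain WeierstrassCurve
open H385 (ZI RQ im1 nrm)
open Pool.Agent.W189.NF (aV eV)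
open Pool.Agent.H921R2.TatePole (nm two_le_nm)
open Pool.Agent.Y699 (pi1 PP PS PD Good PS_prod)
open Pool.Agent.W164.RC (two2 prim_iff_dvd)
open Pool.Agent.H304R2.EC.A1 (prim)
open Pool.Agent.H691.GJ (JK UJ DJ_pp DJ_sq)

/-- the set of the exponent vector -/
def Jn {r : ℕ} (ν : Fin r → ZMod 2) : Finset (Fin r) := univ.filter fun i => ν i ≠ 0

theorem prod_Jn {r : ℕ} {M : Type} [CommMonoid M] (b : Fin r → M) (ν : Fin r → ZMod 2) :
    ∏ i, b i ^ (ν i).val = ∏ i ∈ Jn ν, b i := by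
  unfold Jn
  rw [Finset.prod_filter]
  refine Finset.prod_congr rfl fun i _ => ?_
  have h : ∀ z : ZMod 2, z.val = if z ≠ 0 then 1 else 0 := by decide
  rw [h]
  split_ifs
  · rw [pow_one]
  · rw [pow_zero]

/-- the norm of an element congruent to `1` modulo `4` -/
theorem norm_four {b : ZI} (h : (4 : ZI) ∣ b - 1) : b.norm % 8 = 1 := by
  obtain ⟨c, hc⟩ := h
  have h1 : b.re = 1 + 4 * c.re := by
    have := congrArg Zsqrtd.re hc
    simp only [Zsqrtd.re_sub, Zsqrtd.re_one, Zsqrtd.re_mul, Zsqrtd.re_ofNat, Zsqrtd.im_ofNat] at this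
    push_cast at this
    linarith
  have h2 : b.im = 4 * c.im := by
    have := congrArg Zsqrtd.im hc
    simp only [Zsqrtd.im_sub, Zsqrtd.im_one, Zsqrtd.im_mul, Zsqrtd.re_ofNat, Zsqrtd.im_ofNat] at this
    push_cast at this
    linarith
  rw [Zsqrtd.norm_def, h1, h2]
  have : (1 + 4 * c.re) * (1 + 4 * c.re) - -1 * (4 * c.im) * (4 * c.im) =
      8 * (c.re + 2 * c.re ^ 2 + 2 * c.im ^ 2) + 1 := by ring
  rw [this]
  omega

theorem norm_prod {r : ℕ} {b : Fin r → ZI} (hb4 : ∀ i, (4 : ZI) ∣ b i - 1) (J : Finset (Fin r)) :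
    (∏ i ∈ J, b i).norm % 8 = 1 := by
  induction J using Finset.induction_on with
  | empty =>
    rw [Finset.prod_empty]
    decide
  | insert a J ha ih =>
    rw [Finset.prod_insert ha, Zsqrtd.norm_mul, Int.mul_emod, ih, norm_four (hb4 a)]
    norm_num

/-- the norm of the twist -/
theorem norm_DJ {D D' B : ZI} (h5 : D.norm % 8 = 5) (hD' : D'.norm % 2 = 1) (hB : B.norm % 8 = 1)
    (h : IsSquare (D * D' * B)) : D'.norm % 8 = 5 := by
  obtain ⟨t, ht⟩ := h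
  have h1 := congrArg Zsqrtd.norm ht
  rw [Zsqrtd.norm_mul, Zsqrtd.norm_mul, Zsqrtd.norm_mul] at h1
  have hodd : t.norm % 2 = 1 := by
    by_contra hc
    have h2 : t.norm % 2 = 0 := by omega
    have h3 : (t.norm * t.norm) % 2 = 0 := by
      rw [Int.mul_emod, h2]
      norm_num
    rw [← h1, Int.mul_emod, Int.mul_emod D.norm] at h3
    have h4 : D.norm % 2 = 1 := by omega
    have h5 : B.norm % 2 = 1 := by omega
    rw [h4, h5, hD'] at h3
    norm_num at h3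
  have h8 : (t.norm * t.norm) % 8 = 1 := by
    have h9 : t.norm % 8 = 1 ∨ t.norm % 8 = 3 ∨ t.norm % 8 = 5 ∨ t.norm % 8 = 7 := by omega
    rw [Int.mul_emod]
    rcases h9 with h | h | h | h <;> rw [h] <;> norm_num
  have h10 : (D.norm * D'.norm * B.norm) % 8 = (5 * (D'.norm % 8)) % 8 := by
    rw [Int.mul_emod, hB, Int.mul_emod D.norm, h5]
    omega
  rw [← h1, h10] at h8
  omega

/-- all the twists are good -/
theorem good_of_JK {r : ℕ} {b : Fin r → ZI} (hb4 : ∀ i, (4 : ZI) ∣ b i - 1) {D : ZI}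
    (h5 : D.norm % 8 = 5) (h : JK b D) (J : Finset (Fin r)) {D' : ZI} (hD' : PS D')
    (hs : IsSquare (D * D' * ∏ i ∈ J, b i)) : Good D' :=
  ⟨hD', norm_DJ h5 (Pool.Agent.H304R2.EC.A1.prim_norm_odd hD'.prm) (norm_prod hb4 J) hs,
    Pool.Agent.H691.GZ.NS.ker_of_gd hD' (h J D' hD' hs)⟩

section
variable {K : Type} [Field K] [NumberField K]

/-- **The curves over the multiquadratic extension.** -/
theorem over_F (e : ZI ≃+* 𝓞 K) {r : ℕ} {b : Fin r → ZI} (hb : ∀ i, PS (b i))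
    (hb4 : ∀ i, (4 : ZI) ∣ b i - 1)
    (hind : ∀ J : Finset (Fin r), J.Nonempty → ¬ IsSquare (∏ i ∈ J, b i))
    (F : Type) [Field F] [NumberField F] [Algebra K F] (θ : Fin r → F)
    (hθ : ∀ i, θ i ^ 2 = algebraMap K F ((e (b i) : 𝓞 K) : K))
    (hgen : ∀ S : Subfield F, (∀ k : K, algebraMap K F k ∈ S) → (∀ i, θ i ∈ S) → S = ⊤) :
    Module.finrank K F = 2 ^ r ∧ ∀ D : ZI, PS D → ∃ Λ : ℂ → ℂ, Differentiable ℂ Λ ∧
      (∀ s : ℂ, 3 / 2 < s.re → Λ s = (cv (algebraMap K F ((e D : 𝓞 K) : K))).LSeries s) ∧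
      (D.norm % 8 = 5 → JK b D → Λ 1 ≠ 0 ∧ T2 (algebraMap K F ((e D : 𝓞 K) : K))) := by
  -- integral roots
  have hint : ∀ i, IsIntegral ℤ (θ i) := fun i => by
    refine IsIntegral.of_pow (n := 2) (by norm_num) ?_
    rw [hθ]
    exact ((e (b i)).isIntegral_coe).map (algebraMap K F).toIntAlgHom
  obtain ⟨θ', hθ'⟩ : ∃ θ' : Fin r → 𝓞 F, ∀ i, (θ' i : F) = θ i :=
    ⟨fun i => ⟨θ i, hint i⟩, fun i => rfl⟩
  have hθ2 : ∀ i, θ' i ^ 2 = algebraMap (𝓞 K) (𝓞 F) (e (b i)) := fun i => by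
    apply RingOfIntegers.ext
    rw [coe_pw, hθ', hθ]
    rfl
  have hβ : ∀ i, e (b i) ≠ 0 := fun i => (map_ne_zero_iff _ e.injective).2 (hb i).ne
  have hgen' : ∀ S : Subfield F, (∀ k : K, algebraMap K F k ∈ S) → (∀ i, (θ' i : F) ∈ S) → S = ⊤ :=
    fun S h1 h2 => hgen S h1 fun i => by rw [← hθ']; exact h2 i
  have hcoe : ∀ ν : Fin r → ZMod 2, ∏ i, ((e (b i) : 𝓞 K) : K) ^ (ν i).val =
      ((e (∏ i ∈ Jn ν, b i) : 𝓞 K) : K) := by
    intro ν
    rw [prod_Jn (fun i => ((e (b i) : 𝓞 K) : K)), map_prod]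
    have : ((∏ i ∈ Jn ν, e (b i) : 𝓞 K) : K) = algebraMap (𝓞 K) K (∏ i ∈ Jn ν, e (b i)) := rfl
    rw [this, map_prod]
  have hindK : ∀ ν : Fin r → ZMod 2, ν ≠ 0 → ∀ y : K,
      y ^ 2 ≠ ∏ i, ((e (b i) : 𝓞 K) : K) ^ (ν i).val := by
    intro ν hν y hy
    rw [hcoe] at hy
    have hyi : IsIntegral ℤ y := by
      refine IsIntegral.of_pow (n := 2) (by norm_num) ?_
      rw [hy]
      exact (e (∏ i ∈ Jn ν, b i)).isIntegral_coe
    obtain ⟨y', hy'⟩ : ∃ y' : 𝓞 K, (y' : K) = y := ⟨⟨y, hyi⟩, rfl⟩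
    obtain ⟨z, rfl⟩ := e.surjective y'
    have hne : (Jn ν).Nonempty := by
      rw [Finset.nonempty_iff_ne_empty]
      intro h0
      apply hν
      funext i
      by_contra hi
      have : i ∈ Jn ν := by
        unfold Jn
        rw [mem_filter]
        exact ⟨mem_univ i, hi⟩
      rw [h0] at this
      exact Finset.notMem_empty _ this
    apply hind _ hne
    refine ⟨z, ?_⟩
    apply e.injective
    apply RingOfIntegers.ext
    rw [← hy, ← hy', map_mul, sq]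
    rfl
  obtain ⟨hd, hE⟩ := tower r K F (fun i => e (b i)) hβ hindK θ' hθ2 hgen'
  refine ⟨hd, fun D hD => ?_⟩
  have hD0 : e D ≠ 0 := (map_ne_zero_iff _ e.injective).2 hD.ne
  -- the twists
  obtain ⟨DJ, hDJ⟩ : ∃ DJ : (Fin r → ZMod 2) → ZI, ∀ ν, DJ ν =
      ∏ π ∈ symmDiff (PD D) (UJ b (Jn ν)), π := ⟨_, fun _ => rfl⟩
  have hDJps : ∀ ν, PS (DJ ν) := fun ν => by
    rw [hDJ]
    exact (PS_prod (DJ_pp hb hD (Jn ν))).1
  have hDJsq : ∀ ν, IsSquare (D * DJ ν * ∏ i ∈ Jn ν, b i) := fun ν => by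
    rw [hDJ]
    exact DJ_sq hb hD (Jn ν)
  have hBne : ∀ ν, ∏ i ∈ Jn ν, b i ≠ 0 := fun ν => Finset.prod_ne_zero_iff.2 fun i _ => (hb i).ne
  have hδν : ∀ ν : Fin r → ZMod 2, e D * ∏ i, e (b i) ^ (ν i).val = e (D * ∏ i ∈ Jn ν, b i) := by
    intro ν
    rw [prod_Jn (fun i => e (b i)), map_mul, map_prod]
  have hL := fun ν => ex_L e (hDJps ν)
  choose L hL1 hL2 hL3 using hL
  -- the product
  have hprod : ∀ s : ℂ, 3 / 2 < s.re → HasProd (fun w : HeightOneSpectrum (𝓞 F) =>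
      lf (algebraMap (𝓞 K) (𝓞 F) (e D)) w ((nm w : ℂ) ^ (-s))) (∏ ν, L ν s) := by
    intro s hs
    refine hE (e D) hD0 s hs (fun ν => L ν s) fun ν => ?_
    refine (hL3 ν s hs).congr_fun fun v => ?_
    rw [hδν]
    obtain ⟨t, ht⟩ := hDJsq ν
    refine lf_sq (m := e t) ?_ ?_ ?_ _
    · exact (map_ne_zero_iff _ e.injective).2 (mul_ne_zero hD.ne (hBne ν))
    · exact (map_ne_zero_iff _ e.injective).2 (hDJps ν).ne
    · rw [← map_mul, ← map_pow, sq, ← ht]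
      congr 1
      ring
  -- the local factors
  have hpi : im1 ^ 2 = (-1 : ZI) := by decide
  have hpi1 : pi1 = 1 + im1 := by decide
  have hpi0 : (pi1 : ZI) ≠ 0 := by decide
  obtain ⟨c, hc⟩ := (prim_iff_dvd D).1 hD.prm
  have htwo : (two2 : ZI) = pi1 ^ 3 * ⟨0, -1⟩ := by decide
  have hloc : ∀ w : HeightOneSpectrum (𝓞 F),
      aV (cv (algebraMap K F ((e D : 𝓞 K) : K))) w = tr (algebraMap (𝓞 K) (𝓞 F) (e D)) w ∧
      eV (cv (algebraMap K F ((e D : 𝓞 K) : K))) w = dt (algebraMap (𝓞 K) (𝓞 F) (e D)) w := by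
    intro w
    refine av_tr (δ := algebraMap (𝓞 K) (𝓞 F) (e D)) (alg_ne hD0) fun hw => ?_
    refine ⟨algebraMap (𝓞 K) (𝓞 F) (e im1), algebraMap (𝓞 K) (𝓞 F) (e pi1),
      algebraMap (𝓞 K) (𝓞 F) (e (⟨0, -1⟩ * c)), ?_, ?_, ?_, ?_⟩
    · rw [← map_pow, ← map_pow, hpi, map_neg, map_one, map_neg, map_one]
    · rw [hpi1, map_add, map_one, map_add, map_one]
    · refine od_tower r K F (fun i => e (b i)) hβ (fun i => ?_) hindK θ' hθ2 hgen' (e pi1)
        ((map_ne_zero_iff _ e.injective).2 hpi0) (fun v hv => od_pi1 e hv) w hw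
      obtain ⟨c', hc'⟩ := hb4 i
      refine ⟨e c', ?_⟩
      have : b i = 1 + 4 * c' := by linear_combination hc'
      rw [this, map_add, map_mul, map_one, map_ofNat]
    · have h1 : D - 1 = pi1 ^ 3 * (⟨0, -1⟩ * c) := by
        rw [hc, htwo]
        ring
      rw [← map_one (algebraMap (𝓞 K) (𝓞 F)), ← map_one e, ← map_sub, ← map_sub, h1, map_mul,
        map_mul, map_pow, map_pow]
  refine ⟨fun s => ∏ ν, L ν s, Differentiable.fun_finsetProd fun ν _ => hL1 ν, fun s hs => ?_,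
    fun h5 hJ => ⟨?_, ?_⟩⟩
  · have h1 := (Pool.Agent.Y696.LSeries_hasProd' (cv (algebraMap K F ((e D : 𝓞 K) : K)))
      (fun w => by
        rw [(hloc w).1, (hloc w).2]
        exact hbd_lf _ w) hs).2
    have h2 := hprod s hs
    refine h2.unique ?_
    refine h1.congr_fun fun w => ?_
    unfold lf
    rw [(hloc w).1, (hloc w).2]
  · exact Finset.prod_ne_zero_iff.2 fun ν _ =>
      hL2 ν (good_of_JK hb4 h5 hJ (Jn ν) (hDJps ν) (hDJsq ν))
  · refine t2_tower r K F (i := ((e im1 : 𝓞 K) : K)) ?_ (fun i => ((e (b i) : 𝓞 K) : K))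
      (fun i h => hβ i (RingOfIntegers.ext h)) hindK θ hθ hgen ((e D : 𝓞 K) : K)
      (fun h => hD0 (RingOfIntegers.ext h)) fun ν => ?_
    · rw [← coe_pw, ← map_pow, hpi, map_neg, map_one]
      rfl
    · rw [hcoe, ← coe_ml, ← map_mul]
      obtain ⟨t, ht⟩ := hDJsq ν
      refine t2_sq (δ' := ((e (DJ ν) : 𝓞 K) : K)) (m := ((e t : 𝓞 K) : K)) ?_ ?_ ?_
        (t2_of_good e (good_of_JK hb4 h5 hJ (Jn ν) (hDJps ν) (hDJsq ν)))
      · exact fun h => (map_ne_zero_iff _ e.injective).2 (mul_ne_zero hD.ne (hBne ν))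
          (RingOfIntegers.ext h)
      · exact fun h => (map_ne_zero_iff _ e.injective).2 (hDJps ν).ne (RingOfIntegers.ext h)
      · rw [← coe_ml, ← coe_pw, ← map_mul, ← map_pow, sq, ← ht]
        congr 2
        ring

end

end Pool.Agent.H691.MI
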