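import Pool.Agent.Run7.h691.MI.Lf
import Pool.Agent.Y698.Lf

/-!
# The local factors of Mathlib's `L`-series of `y² = x³ - δ² x` over any number field

After `Pool/Agent/Run7/h707/TE/Mod` (helper707, for `y² + δ y = x³`); new: the places above `2`.
-/

set_option autoImplicit false
set_option linter.unusedVariables false
set_option linter.unusedSectionVars false
set_option linter.style.haveILetI false

open scoped Classical

namespace Pool.Agent.H691.MI

open NumberField IsDedekindDomain WeierstrassCurve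
open Pool.Agent.W189.NF (aV eV redMap Ov mem_max_iff finite_res card_res redMap_eq_zero aLoc eLoc
  redMap_surjective)
open Pool.Agent.H921R2.TatePole (nm two_le_nm)
open Pool.Agent.Y698 (AP min_count v_unit AP_equiv card_point vc_int)

/-- the curve `y² = x³ - d² x` -/
def cv {R : Type*} [CommRing R] (d : R) : WeierstrassCurve R := ⟨0, 0, 0, -d ^ 2, 0⟩

theorem cv_Δ {R : Type*} [CommRing R] (d : R) : (cv d).Δ = 64 * d ^ 6 := by
  unfold cv
  simp only [WeierstrassCurve.Δ, WeierstrassCurve.b₂, WeierstrassCurve.b₄, WeierstrassCurve.b₆,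
    WeierstrassCurve.b₈]
  ring

theorem cv_c₄ {R : Type*} [CommRing R] (d : R) : (cv d).c₄ = 48 * d ^ 2 := by
  unfold cv
  simp only [WeierstrassCurve.c₄, WeierstrassCurve.b₂, WeierstrassCurve.b₄]
  ring

theorem cv_map {R S : Type*} [CommRing R] [CommRing S] (f : R →+* S) (d : R) :
    (cv d).map f = cv (f d) := by
  unfold cv WeierstrassCurve.map
  simp

/-- no integral model has a unit discriminant at an unramified place above `1 + i` -/
theorem no_gd {R : Type} [CommRing R] [IsDomain R] {i l : R} (hi : i ^ 2 = -1) (hl : l = 1 + i)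
    (hp : Prime l) {a1 a2 a3 a4 n D : R} (hn : IsUnit n) (hD : l ^ 3 ∣ D - 1)
    (h : (a1 ^ 2 + 4 * a2) ^ 2 - 24 * (2 * a4 + a1 * a3) = -12 * D ^ 2 * n ^ 4) : False := by
  have l2 : l ^ 2 = 2 * i := by rw [hl]; linear_combination hi
  have e2 : (2 : R) = -i * l ^ 2 := by rw [l2]; linear_combination (2 : R) * hi
  have e4 : (4 : R) = -l ^ 4 := by
    have : l ^ 4 = (l ^ 2) ^ 2 := by ring
    rw [this, l2]
    linear_combination (4 : R) * hi
  have d2 : l ∣ (2 : R) := by rw [e2]; exact ⟨-i * l, by ring⟩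
  have h1 : l ∣ a1 := by
    refine hp.dvd_of_dvd_pow (n := 4) ?_
    have e : a1 ^ 4 = 2 * (-6 * D ^ 2 * n ^ 4 - (4 * a1 ^ 2 * a2 + 8 * a2 ^ 2
        - 12 * (2 * a4 + a1 * a3))) := by linear_combination h
    rw [e]
    exact d2.mul_right _
  obtain ⟨g, rfl⟩ := h1
  obtain ⟨T, hT⟩ : ∃ T : R, T = g ^ 4 - 4 * i * g ^ 2 * a2 - 4 * a2 ^ 2 + 12 * a4 + 6 * l * g * a3 :=
    ⟨_, rfl⟩
  have h4n : (4 : R) ≠ 0 := by
    rw [e4]
    exact neg_ne_zero.2 (pow_ne_zero 4 hp.ne_zero)
  have h4 : T = 3 * D ^ 2 * n ^ 4 := by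
    apply mul_left_cancel₀ (neg_ne_zero.2 h4n)
    have e5 : -4 * (3 * D ^ 2 * n ^ 4) = -12 * D ^ 2 * n ^ 4 := by ring
    have e6 : (l * g) ^ 2 = 2 * i * g ^ 2 := by rw [mul_pow, l2]
    have e7 : ((l * g) ^ 2 + 4 * a2) ^ 2 = -4 * (g ^ 4 - 4 * i * g ^ 2 * a2 - 4 * a2 ^ 2) := by
      rw [e6]
      linear_combination (4 * g ^ 4) * hi
    rw [e7] at h
    rw [e5, ← h, hT]
    ring
  obtain ⟨d, hd⟩ := hD
  have h6 : l ^ 3 ∣ T - g ^ 4 := by
    refine ⟨(-l) * (-i * g ^ 2 * a2 - a2 ^ 2 + 3 * a4) - 3 * i * g * a3, ?_⟩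
    rw [hT]
    linear_combination (-i * g ^ 2 * a2 - a2 ^ 2 + 3 * a4) * e4 + (3 * l * g * a3) * e2
  obtain ⟨n', hn'⟩ := hn.exists_right_inv
  obtain ⟨k, hk⟩ : ∃ k, k = g * n' := ⟨_, rfl⟩
  have hn4 : n ^ 4 * n' ^ 4 = 1 := by rw [← mul_pow, hn', one_pow]
  have h7 : l ^ 3 ∣ k ^ 4 + 1 := by
    have e : k ^ 4 + 1 = -(T - g ^ 4) * n' ^ 4 + l ^ 3 * (3 * d * (D + 1) - l) := by
      rw [hk]
      linear_combination n' ^ 4 * h4 + (3 * D ^ 2) * hn4 + 3 * (D + 1) * hd + e4
    rw [e]
    exact dvd_add ((dvd_neg.2 h6).mul_right _) (dvd_mul_right _ _)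
  have hl3 : l ∣ l ^ 3 := dvd_pow_self l (by norm_num)
  have h8 : l ∣ k ^ 2 - 1 := by
    refine hp.dvd_of_dvd_pow (n := 2) ?_
    have e : (k ^ 2 - 1) ^ 2 = (k ^ 4 + 1) - 2 * k ^ 2 := by ring
    rw [e]
    exact dvd_sub (hl3.trans h7) (d2.mul_right _)
  have h9 : l ∣ k - 1 := by
    refine hp.dvd_of_dvd_pow (n := 2) ?_
    have e : (k - 1) ^ 2 = (k ^ 2 - 1) - 2 * (k - 1) := by ring
    rw [e]
    exact dvd_sub h8 (d2.mul_right _)
  obtain ⟨s, hs⟩ := h9
  have hk2 : k ^ 2 = 1 + l ^ 2 * (s ^ 2 - i * l * s) := by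
    have : k = 1 + l * s := by linear_combination hs
    rw [this]
    linear_combination (l * s) * e2
  obtain ⟨q, hq⟩ : ∃ q, q = s ^ 2 - i * l * s := ⟨_, rfl⟩
  rw [← hq] at hk2
  obtain ⟨c, hc⟩ := h7
  have hk4 : l ^ 2 * (-i) = l ^ 2 * (l * (c + i * l * q - l * q ^ 2)) := by
    have e : k ^ 4 = (k ^ 2) ^ 2 := by ring
    rw [e, hk2] at hc
    linear_combination hc - (1 + l ^ 2 * q) * e2
  have h10 := mul_left_cancel₀ (pow_ne_zero 2 hp.ne_zero) hk4
  apply hp.not_isUnit
  rw [isUnit_iff_exists_inv]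
  refine ⟨(c + i * l * q - l * q ^ 2) * i, ?_⟩
  rw [← mul_assoc, ← h10]
  linear_combination -hi

section Local
variable (R : Type) [CommRing R] [IsDomain R] [IsDiscreteValuationRing R] {L : Type}
  [Field L] [Algebra R L] [IsFractionRing R L]

open IsDiscreteValuationRing

/-- a curve isomorphic to one with an integral equation with a unit discriminant -/
theorem min_good' {W₀ : WeierstrassCurve R} (hΔ : IsUnit W₀.Δ) {W : WeierstrassCurve L}
    {C' : VariableChange L} (hW : C' • W = W₀.map (algebraMap R L)) :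
    (W.minimal R).HasGoodReduction R := by
  have hWint : IsIntegral R (C' • W) := ⟨⟨W₀, hW⟩⟩
  have hvW : (maximalIdeal R).valuation L (C' • W).Δ = 1 := by
    rw [hW, map_Δ]
    exact v_unit R hΔ
  obtain ⟨C, hC⟩ : ∃ C : VariableChange L, W.minimal R = C • W := ⟨_, rfl⟩
  have hmin : IsMinimal R (W.minimal R) := inferInstance
  refine ⟨?_⟩
  obtain ⟨h1, h2⟩ := hmin.val_Δ_maximal
  have e1 : (C' * C⁻¹) • W.minimal R = C' • W := by rw [hC, mul_smul, inv_smul_smul]
  have h3 := h2 (j := C' * C⁻¹) (by simp only [e1]; exact hWint)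
  simp only [e1, one_smul] at h3
  have hle : valuation_Δ_aux R (W.minimal R) ≤ valuation_Δ_aux R (C' • W) := by
    rw [← Subtype.coe_le_coe, valuation_Δ_aux_eq_of_isIntegral R (C' • W), hvW]
    exact (valuation_Δ_aux R (W.minimal R)).2
  have h4 := le_antisymm hle (h3 hle)
  have h5 := congrArg Subtype.val h4
  rw [valuation_Δ_aux_eq_of_isIntegral, valuation_Δ_aux_eq_of_isIntegral] at h5
  rw [h5]
  exact hvW

/-- the local factor at a place of good reduction -/
theorem min_count' {W₀ : WeierstrassCurve R} (hΔ : IsUnit W₀.Δ) {W : WeierstrassCurve L}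
    {C' : VariableChange L} (hW : C' • W = W₀.map (algebraMap R L))
    [Finite (IsLocalRing.ResidueField R)] :
    aLoc R W = (Nat.card (IsLocalRing.ResidueField R) : ℤ) -
      Nat.card (AP (W₀.map (IsLocalRing.residue R))) ∧
    eLoc R W = Nat.card (IsLocalRing.ResidueField R) := by
  have hg := min_good' R hΔ hW
  unfold aLoc eLoc
  rw [if_pos hg, if_pos hg]
  refine ⟨?_, rfl⟩
  obtain ⟨C, hC⟩ : ∃ C : VariableChange L, W.minimal R = C • W := ⟨_, rfl⟩
  have h1 : ((W.minimal R).integralModel R).map (algebraMap R L) =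
      (C * C'⁻¹) • W₀.map (algebraMap R L) := by
    have := baseChange_integralModel_eq R (W.minimal R)
    rw [← hW, mul_smul, inv_smul_smul, ← hC]
    exact this
  have h2 : IsUnit ((W.minimal R).integralModel R).Δ := by
    have h3 := hg.goodReduction
    rw [← integralModel_Δ_eq R (W.minimal R),
      IsDedekindDomain.HeightOneSpectrum.valuation_eq_one_iff_notMem] at h3
    by_contra h4
    exact h3 ((IsLocalRing.mem_maximalIdeal _).2 h4)
  obtain ⟨C₀, hC₀⟩ := vc_int R hΔ h2 h1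
  have h3 : (W.minimal R).reduction R = (C₀.map (IsLocalRing.residue R)) •
      (W₀.map (IsLocalRing.residue R)) := by
    unfold WeierstrassCurve.reduction
    rw [hC₀, ← WeierstrassCurve.map_variableChange]
  have h4 : ((W.minimal R).reduction R).Δ ≠ 0 := by
    unfold WeierstrassCurve.reduction
    rw [map_Δ]
    exact (h2.map _).ne_zero
  rw [card_point _ h4, h3, Nat.card_congr (AP_equiv _ _)]
  push_cast
  ring

/-- bad reduction is additive if `j = 1728` -/
theorem add_gen {W : WeierstrassCurve L} (h4 : W.c₄ ^ 3 = 1728 * W.Δ)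
    (hng : ¬ (W.minimal R).HasGoodReduction R) : aLoc R W = 0 ∧ eLoc R W = 0 := by
  set v := (maximalIdeal R).valuation L with hv
  obtain ⟨C, hC⟩ : ∃ C : VariableChange L, W.minimal R = C • W := ⟨_, rfl⟩
  set u : L := ((C.u⁻¹ : Lˣ) : L) with hu
  have hd : (W.minimal R).Δ = u ^ 12 * W.Δ := by rw [hC, variableChange_Δ]
  have hc : (W.minimal R).c₄ = u ^ 4 * W.c₄ := by rw [hC, variableChange_c₄]
  have hnm : ¬ (W.minimal R).HasMultiplicativeReduction R := by
    intro h
    have h1 := h.multiplicativeReduction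
    have h2 := h.badReduction
    have h3 : (W.minimal R).c₄ ^ 3 = 1728 * (W.minimal R).Δ := by
      rw [hc, hd]
      linear_combination u ^ 12 * h4
    have h5 := congrArg v h3
    rw [map_pow, map_mul] at h5
    have h6 : v (W.minimal R).c₄ = 1 := h1
    rw [h6, one_pow] at h5
    have hj : v (1728 : L) ≤ 1 := by
      have : (1728 : L) = algebraMap R L 1728 := by rw [map_ofNat]
      rw [this]
      exact IsDedekindDomain.HeightOneSpectrum.valuation_le_one _ _
    have h7 : v (1728 : L) * v (W.minimal R).Δ < 1 := by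
      refine lt_of_le_of_lt (mul_le_of_le_one_left' hj) h2
    rw [← h5] at h7
    exact lt_irrefl _ h7
  have hns : ¬ (W.minimal R).HasSplitMultiplicativeReduction R := fun h =>
    hnm h.toHasMultiplicativeReduction
  unfold aLoc eLoc
  rw [if_neg hng, if_neg hng, if_neg hns, if_neg hnm]
  exact ⟨rfl, rfl⟩

theorem cv_j (d : L) : (cv d).c₄ ^ 3 = 1728 * (cv d).Δ := by
  rw [cv_c₄, cv_Δ]
  ring

/-- the discriminant -/
theorem ng_of {W : WeierstrassCurve L} {m : ℕ} (hm : ¬ 12 ∣ m)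
    (hΔ : (maximalIdeal R).valuation L W.Δ = WithZero.exp (-(m : ℤ))) :
    ¬ (W.minimal R).HasGoodReduction R := by
  set v := (maximalIdeal R).valuation L with hv
  obtain ⟨C, hC⟩ : ∃ C : VariableChange L, W.minimal R = C • W := ⟨_, rfl⟩
  set u : L := ((C.u⁻¹ : Lˣ) : L) with hu
  have hu0 : u ≠ 0 := (C.u⁻¹).ne_zero
  have hd : (W.minimal R).Δ = u ^ 12 * W.Δ := by rw [hC, variableChange_Δ]
  intro h
  have h1 := h.goodReduction
  rw [hd, map_mul, hΔ, map_pow] at h1
  have h2 : v u ≠ 0 := (Valuation.ne_zero_iff v).2 hu0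
  obtain ⟨k, hk⟩ : ∃ k : ℤ, v u = WithZero.exp k := ⟨WithZero.log (v u), (WithZero.exp_log h2).symm⟩
  rw [hk, ← WithZero.exp_nsmul, ← WithZero.exp_add, WithZero.exp_eq_one] at h1
  simp only [nsmul_eq_mul] at h1
  push_cast at h1
  omega

/-- no good reduction at the unramified places above `1 + i` -/
theorem ng_two {i l D : R} (hi : i ^ 2 = -1) (hl : l = 1 + i) (hp : Irreducible l)
    (hv1 : (maximalIdeal R).valuation L (algebraMap R L l) = WithZero.exp (-1 : ℤ))
    (hD : l ^ 3 ∣ D - 1) {W : WeierstrassCurve L} (hW : W = cv (algebraMap R L D)) :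
    ¬ (W.minimal R).HasGoodReduction R := by
  have hpr : Prime l := hp.prime
  set v := (maximalIdeal R).valuation L with hv
  set f := algebraMap R L with hf
  have hinj : Function.Injective f := IsFractionRing.injective R L
  obtain ⟨C, hC⟩ : ∃ C : VariableChange L, W.minimal R = C • W := ⟨_, rfl⟩
  set u : L := ((C.u⁻¹ : Lˣ) : L) with hu
  have hu0 : u ≠ 0 := (C.u⁻¹).ne_zero
  have hd : (W.minimal R).Δ = u ^ 12 * W.Δ := by rw [hC, variableChange_Δ]
  have hc : (W.minimal R).c₄ = u ^ 4 * W.c₄ := by rw [hC, variableChange_c₄]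
  have l2 : l ^ 2 = 2 * i := by rw [hl]; linear_combination hi
  have e4 : l ^ 4 = -4 := by
    have : l ^ 4 = (l ^ 2) ^ 2 := by ring
    rw [this, l2]
    linear_combination (4 : R) * hi
  have e12 : (64 : R) = -l ^ 12 := by
    have : l ^ 12 = (l ^ 4) ^ 3 := by ring
    rw [this, e4]
    norm_num
  have hDu : IsUnit D := by
    by_contra hcon
    have h1 : D ∈ IsLocalRing.maximalIdeal R := (IsLocalRing.mem_maximalIdeal D).2 hcon
    have h2 : l ∈ IsLocalRing.maximalIdeal R := (IsLocalRing.mem_maximalIdeal l).2 hp.not_isUnit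
    obtain ⟨t, ht⟩ := hD
    have h3 : (1 : R) ∈ IsLocalRing.maximalIdeal R := by
      have e : (1 : R) = D - l * (l ^ 2 * t) := by linear_combination -ht
      rw [e]
      exact sub_mem h1 (Ideal.mul_mem_right _ _ h2)
    exact (IsLocalRing.mem_maximalIdeal (1 : R)).1 h3 isUnit_one
  intro h
  have h1 := h.goodReduction
  have hWΔ : W.Δ = -(f l ^ 12 * f D ^ 6) := by
    rw [hW, cv_Δ]
    have : (64 : L) = f 64 := by rw [map_ofNat]
    rw [this, e12, map_neg, map_pow]
    ring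
  have hvD : v (f D) = 1 := v_unit R hDu
  rw [hd, hWΔ, map_mul, Valuation.map_neg, map_mul, map_pow, map_pow, map_pow, hvD, one_pow,
    mul_one, ← mul_pow] at h1
  have hm1 : v (u * f l) = 1 := by
    rw [map_mul]
    exact (pow_eq_one_iff_of_nonneg zero_le (by norm_num)).1 h1
  obtain ⟨m, hm⟩ := exists_lift_of_le_one (A := R) (K := L) hm1.le
  have hmu : IsUnit m := by
    by_contra hcon
    have h2 : m ∈ IsLocalRing.maximalIdeal R := (IsLocalRing.mem_maximalIdeal m).2 hcon
    have h3 := ((maximalIdeal R).valuation_lt_one_iff_mem (K := L) m).2 h2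
    have h4 : v (f m) < 1 := h3
    rw [hm, hm1] at h4
    exact lt_irrefl _ h4
  have hc' : ((W.minimal R).integralModel R).c₄ = -12 * D ^ 2 * m ^ 4 := by
    apply hinj
    have h2 : f ((W.minimal R).integralModel R).c₄ = (W.minimal R).c₄ :=
      integralModel_c₄_eq R (W.minimal R)
    rw [h2, hc, hW, cv_c₄, map_mul, map_mul, map_pow, map_pow, hm, mul_pow]
    have h5 : f l ^ 4 = -4 := by rw [← map_pow, e4, map_neg, map_ofNat]
    have h6 : f (-12) = -12 := by rw [map_neg, map_ofNat]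
    rw [h5, h6]
    ring
  refine no_gd (a1 := ((W.minimal R).integralModel R).a₁) (a2 := ((W.minimal R).integralModel R).a₂)
    (a3 := ((W.minimal R).integralModel R).a₃) (a4 := ((W.minimal R).integralModel R).a₄)
    hi hl hpr hmu hD ?_
  rw [← hc']
  unfold WeierstrassCurve.c₄ WeierstrassCurve.b₂ WeierstrassCurve.b₄
  ring

end Local

/-- isomorphic finite fields -/
theorem Nk_equiv {k k' : Type} [Field k] [Field k'] (f : k ≃+* k') (r : k) : Nk (f r) = Nk r := by
  unfold Nk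
  symm
  refine Nat.card_congr ((f.toEquiv.prodCongr f.toEquiv).subtypeEquiv fun P => ?_)
  simp only [Equiv.prodCongr_apply, Prod.map_fst, Prod.map_snd, RingEquiv.toEquiv_eq_coe,
    EquivLike.coe_coe]
  rw [← map_pow, ← map_pow, ← map_pow, ← map_mul, ← map_sub, f.injective.eq_iff]

section places
variable {K : Type} [Field K] [NumberField K]

theorem coe_comp (v : HeightOneSpectrum (𝓞 K)) (x : 𝓞 K) :
    algebraMap (Ov v) (v.adicCompletion K) (algebraMap (𝓞 K) (Ov v) x) =
      algebraMap K (v.adicCompletion K) (x : K) := by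
  rw [HeightOneSpectrum.algebraMap_adicCompletion]
  rfl

theorem isUnit_of_notMem {v : HeightOneSpectrum (𝓞 K)} {x : 𝓞 K} (hx : x ∉ v.asIdeal) :
    IsUnit (algebraMap (𝓞 K) (Ov v) x) := by
  rw [← IsLocalRing.residue_ne_zero_iff_isUnit]
  intro h
  exact hx ((redMap_eq_zero v x).1 h)

theorem valL_unit {v : HeightOneSpectrum (𝓞 K)} {x : 𝓞 K} (hx : x ∉ v.asIdeal) :
    (IsDiscreteValuationRing.maximalIdeal (v.adicCompletionIntegers K)).valuation
      (v.adicCompletion K) (algebraMap K (v.adicCompletion K) (x : K)) = 1 := by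
  rw [← coe_comp]
  exact v_unit (v.adicCompletionIntegers K) (isUnit_of_notMem hx)

theorem intVal_od (v : HeightOneSpectrum (𝓞 K)) {x : 𝓞 K} (hx : x ≠ 0) :
    v.intValuation x = WithZero.exp (-(od v x : ℤ)) := by
  have h0 : v.intValuation x ≠ 0 := v.intValuation_ne_zero x hx
  obtain ⟨k, hk⟩ : ∃ k : ℤ, v.intValuation x = WithZero.exp k :=
    ⟨WithZero.log _, (WithZero.exp_log h0).symm⟩
  have h1 := (v.intValuation_le_pow_iff_mem x (od v x)).2 ((od_le v hx).1 le_rfl)
  have h2 : ¬ v.intValuation x ≤ WithZero.exp (-((od v x + 1 : ℕ) : ℤ)) := fun h => by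
    have h3 := (od_le v hx).2 ((v.intValuation_le_pow_iff_mem x (od v x + 1)).1 h)
    omega
  rw [hk] at h1 h2 ⊢
  rw [WithZero.exp_le_exp] at h1 h2
  congr 1
  push_cast at h2
  omega

/-- a uniformizer in the completion -/
theorem unif_L {v : HeightOneSpectrum (𝓞 K)} {t : 𝓞 K} (ht0 : t ≠ 0) (ht : od v t = 1) :
    Irreducible (algebraMap (𝓞 K) (Ov v) t : Ov v) ∧
    (IsDiscreteValuationRing.maximalIdeal (v.adicCompletionIntegers K)).valuation
      (v.adicCompletion K) (algebraMap K (v.adicCompletion K) (t : K)) =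
        WithZero.exp (-1 : ℤ) := by
  have hq : ((algebraMap (𝓞 K) (Ov v) t : Ov v) : v.adicCompletion K) =
      algebraMap K (v.adicCompletion K) (t : K) := coe_comp v t
  have h1 : Valued.v (algebraMap K (v.adicCompletion K) (t : K)) = WithZero.exp (-1 : ℤ) := by
    rw [Pool.Agent.H723R3.valued_algebraMap]
    have h2 := HeightOneSpectrum.valuation_of_algebraMap (K := K) v t
    rw [intVal_od v ht0, ht] at h2
    exact h2
  have hlt : ∀ x : Ov v, ¬ IsUnit x → Valued.v (x : v.adicCompletion K) ≤ WithZero.exp (-1 : ℤ) := by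
    intro x hx
    have h2 := (mem_max_iff v x).1 ((IsLocalRing.mem_maximalIdeal x).2 hx)
    by_cases h0 : Valued.v (x : v.adicCompletion K) = 0
    · rw [h0]
      exact zero_le
    · obtain ⟨k, hk⟩ : ∃ k : ℤ, Valued.v (x : v.adicCompletion K) = WithZero.exp k :=
        ⟨WithZero.log _, (WithZero.exp_log h0).symm⟩
      rw [hk] at h2 ⊢
      rw [← WithZero.exp_zero, WithZero.exp_lt_exp] at h2
      rw [WithZero.exp_le_exp]
      omega
  have hirr : Irreducible (algebraMap (𝓞 K) (Ov v) t : Ov v) := by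
    constructor
    · intro hu
      have h2 := HeightOneSpectrum.adicCompletionIntegers.isUnit_iff_valued_eq_one.1 hu
      rw [hq, h1, WithZero.exp_eq_one] at h2
      omega
    · intro a b hab
      by_contra hcon
      push Not at hcon
      have h2 := mul_le_mul' (hlt a hcon.1) (hlt b hcon.2)
      have h3 : ((a * b : Ov v) : v.adicCompletion K) =
        (a : v.adicCompletion K) * (b : v.adicCompletion K) := rfl
      rw [← map_mul, ← h3, ← hab, hq, h1, ← WithZero.exp_add, WithZero.exp_le_exp] at h2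
      omega
  refine ⟨hirr, ?_⟩
  have h2 := (IsDiscreteValuationRing.irreducible_iff_uniformizer _).1 hirr
  have h3 := (IsDiscreteValuationRing.maximalIdeal (Ov v)).intValuation_singleton
    (r := (algebraMap (𝓞 K) (Ov v) t : Ov v)) (hirr.ne_zero) h2
  have h4 := (IsDiscreteValuationRing.maximalIdeal (Ov v)).valuation_of_algebraMap
    (K := v.adicCompletion K) (algebraMap (𝓞 K) (Ov v) t : Ov v)
  rw [h3] at h4
  refine Eq.trans ?_ h4
  congr 1

/-- the valuation in the completion -/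
theorem valL_od (v : HeightOneSpectrum (𝓞 K)) {x : 𝓞 K} (hx : x ≠ 0) :
    (IsDiscreteValuationRing.maximalIdeal (v.adicCompletionIntegers K)).valuation
      (v.adicCompletion K) (algebraMap K (v.adicCompletion K) (x : K)) =
        WithZero.exp (-(od v x : ℤ)) := by
  obtain ⟨t, ht0, ht⟩ := ex_unif v
  have htp : t ^ od v x ≠ 0 := pow_ne_zero _ ht0
  have hod : od v (t ^ od v x) = od v x := by rw [od_pow v ht0, ht, mul_one]
  obtain ⟨s, u, hs, hsu, hou⟩ := ex_div v htp hx hod.le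
  have hu0 : u ≠ 0 := by
    rintro rfl
    rw [mul_zero] at hsu
    have hs0 : s ≠ 0 := by
      rintro rfl
      exact hs (zero_mem _)
    exact mul_ne_zero hs0 hx hsu
  have huv : u ∉ v.asIdeal := by
    rw [← od_zero v hu0]
    omega
  have h1 := congrArg (fun z : 𝓞 K => (IsDiscreteValuationRing.maximalIdeal
    (v.adicCompletionIntegers K)).valuation
      (v.adicCompletion K) (algebraMap K (v.adicCompletion K) (z : K))) hsu
  simp only [map_mul, map_pow] at h1
  rw [valL_unit hs, valL_unit huv, one_mul, mul_one, (unif_L ht0 ht).2, ← WithZero.exp_nsmul] at h1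
  rw [h1]
  congr 1
  simp

/-- a place of additive reduction -/
theorem add_F {v : HeightOneSpectrum (𝓞 K)} {δ : 𝓞 K} (hδ : δ ≠ 0) (h2 : (2 : 𝓞 K) ∉ v.asIdeal)
    (hm : ¬ 2 ∣ od v δ) :
    aV (cv (δ : K)) v = 0 ∧ eV (cv (δ : K)) v = 0 := by
  have e0 : (cv (δ : K)).baseChange (v.adicCompletion K) =
      cv (algebraMap K (v.adicCompletion K) (δ : K)) := cv_map _ _
  unfold aV eV
  rw [e0]
  refine add_gen (v.adicCompletionIntegers K) (cv_j _) ?_
  refine ng_of (v.adicCompletionIntegers K) (m := 6 * od v δ) (by omega) ?_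
  have e : (cv (algebraMap K (v.adicCompletion K) (δ : K))).Δ =
      ((algebraMap K (v.adicCompletion K) ((2 : 𝓞 K) : K)) ^ 6 *
        (algebraMap K (v.adicCompletion K) (δ : K)) ^ 6) := by
    rw [cv_Δ]
    have : algebraMap K (v.adicCompletion K) ((2 : 𝓞 K) : K) = 2 := by
      have h : ((2 : 𝓞 K) : K) = 2 := by norm_cast
      rw [h, map_ofNat]
    rw [this]
    norm_num
  rw [e, map_mul, map_pow, map_pow, valL_od v hδ, valL_unit h2, one_pow, one_mul,
    ← WithZero.exp_nsmul]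
  congr 1
  simp only [nsmul_eq_mul]
  push_cast
  ring

/-- the change of the variables -/
theorem vc_cv {L : Type} [Field L] {δ r : L} {u : Lˣ} (h : δ = r * (u : L) ^ 2) :
    (⟨u, 0, 0, 0⟩ : VariableChange L) • cv δ = cv r := by
  have hu : (u : L) ≠ 0 := u.ne_zero
  ext
  · simp [cv, variableChange_a₁]
  · simp [cv, variableChange_a₂]
  · simp [cv, variableChange_a₃]
  · rw [variableChange_a₄]
    simp only [cv]
    rw [h]
    push_cast
    field_simp
    ring
  · simp [cv, variableChange_a₆]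

/-- the places of good reduction -/
theorem good_F {v : HeightOneSpectrum (𝓞 K)} (h2 : (2 : 𝓞 K) ∉ v.asIdeal) {δ r z z' : 𝓞 K}
    (hδ : δ ≠ 0) (hr : r ∉ v.asIdeal) (hz : z ≠ 0) (h : δ * z ^ 2 = r * z' ^ 2) :
    aV (cv (δ : K)) v = (nm v : ℤ) - Nv v r ∧ eV (cv (δ : K)) v = nm v := by
  have hfin := finite_res v
  have hz' : z' ≠ 0 := by
    rintro rfl
    rw [zero_pow two_ne_zero, mul_zero] at h
    exact mul_ne_zero hδ (pow_ne_zero 2 hz) h
  set f : K →+* v.adicCompletion K := algebraMap K (v.adicCompletion K) with hf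
  have hfz : ∀ x : 𝓞 K, x ≠ 0 → f (x : K) ≠ 0 := fun x hx => by
    rw [Ne, map_eq_zero]
    exact fun h' => hx (RingOfIntegers.ext h')
  have hΔ : IsUnit (cv (algebraMap (𝓞 K) (Ov v) r)).Δ := by
    rw [cv_Δ]
    have e : (64 : Ov v) = ((algebraMap (𝓞 K) (Ov v) 2) ^ 6) := by
      rw [map_ofNat]
      norm_num
    rw [e]
    exact ((isUnit_of_notMem h2).pow 6).mul ((isUnit_of_notMem hr).pow 6)
  have hC : (⟨Units.mk0 (f (z' : K) / f (z : K)) (div_ne_zero (hfz z' hz') (hfz z hz)), 0, 0, 0⟩ :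
      VariableChange (v.adicCompletion K)) • cv (f (δ : K)) =
      (cv (algebraMap (𝓞 K) (Ov v) r)).map (algebraMap (Ov v) (v.adicCompletion K)) := by
    rw [cv_map, coe_comp]
    apply vc_cv
    rw [Units.val_mk0, div_pow]
    have h1 : f (δ : K) * f (z : K) ^ 2 = f (r : K) * f (z' : K) ^ 2 := by
      have h2 := congrArg (fun x : 𝓞 K => f (x : K)) h
      simp only [map_mul, map_pow] at h2
      exact h2
    have hz3 := pow_ne_zero 2 (hfz z hz)
    rw [← mul_div_assoc, eq_div_iff hz3]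
    exact h1
  obtain ⟨a1, a2⟩ := min_count' (v.adicCompletionIntegers K) hΔ hC
  have e0 : (cv (δ : K)).baseChange (v.adicCompletion K) = cv (f (δ : K)) := cv_map _ _
  unfold aV eV
  rw [e0, a1, a2, card_res v]
  refine ⟨?_, rfl⟩
  congr 2
  -- the residue fields
  let g : 𝓞 K ⧸ v.asIdeal →+* IsLocalRing.ResidueField (Ov v) :=
    Ideal.Quotient.lift v.asIdeal (redMap v) fun x hx => (redMap_eq_zero v x).2 hx
  have hg : ∀ x : 𝓞 K, g (Ideal.Quotient.mk v.asIdeal x) = redMap v x := fun x =>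
    Ideal.Quotient.lift_mk _ _ _
  have hbij : Function.Bijective g := by
    constructor
    · rw [injective_iff_map_eq_zero]
      intro x hx
      obtain ⟨x, rfl⟩ := Ideal.Quotient.mk_surjective x
      rw [hg, redMap_eq_zero] at hx
      exact Ideal.Quotient.eq_zero_iff_mem.2 hx
    · intro y
      obtain ⟨x, rfl⟩ := redMap_surjective v y
      exact ⟨Ideal.Quotient.mk v.asIdeal x, hg x⟩
  have h5 := Nk_equiv (RingEquiv.ofBijective g hbij) (Ideal.Quotient.mk v.asIdeal r)
  unfold Nv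
  rw [← h5]
  have h6 : RingEquiv.ofBijective g hbij (Ideal.Quotient.mk v.asIdeal r) = redMap v r := hg r
  rw [h6]
  unfold Nk AP
  refine Nat.card_congr (Equiv.subtypeEquivRight fun P => ?_)
  rw [WeierstrassCurve.Affine.equation_iff, cv_map]
  show P.2 ^ 2 + 0 * P.1 * P.2 + 0 * P.2 = P.1 ^ 3 + 0 * P.1 ^ 2 +
    (-(redMap v r) ^ 2) * P.1 + 0 ↔ _
  constructor
  · intro h7
    linear_combination h7
  · intro h7
    linear_combination h7

/-- the ramified place -/
theorem two_F {v : HeightOneSpectrum (𝓞 K)} {δ i l t : 𝓞 K} (hi : i ^ 2 = -1) (hl : l = 1 + i)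
    (hv : od v l = 1) (ht : δ - 1 = l ^ 3 * t) :
    aV (cv (δ : K)) v = 0 ∧ eV (cv (δ : K)) v = 0 := by
  have hl0 : l ≠ 0 := by
    rintro rfl
    have h1 : (i : 𝓞 K) = -1 := by linear_combination -hl
    rw [h1] at hi
    have : (2 : 𝓞 K) = 0 := by linear_combination hi
    exact two_ne_zero this
  obtain ⟨h1, h2⟩ := unif_L hl0 hv
  have e0 : (cv (δ : K)).baseChange (v.adicCompletion K) =
      cv (algebraMap K (v.adicCompletion K) (δ : K)) := cv_map _ _
  unfold aV eV
  rw [e0]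
  refine add_gen (v.adicCompletionIntegers K) (cv_j _) ?_
  refine ng_two (v.adicCompletionIntegers K) (i := algebraMap (𝓞 K) (Ov v) i)
    (l := algebraMap (𝓞 K) (Ov v) l) (D := algebraMap (𝓞 K) (Ov v) δ) ?_ ?_ h1 ?_ ?_ ?_
  · rw [← map_pow, hi, map_neg, map_one]
  · rw [hl, map_add, map_one]
  · rw [coe_comp]
    exact h2
  · rw [← map_one (algebraMap (𝓞 K) (Ov v)), ← map_sub, ht, map_mul, map_pow]
    exact dvd_mul_right _ _
  · rw [coe_comp]

/-- **The local factors of Mathlib's `L`-series.** -/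
theorem av_tr {v : HeightOneSpectrum (𝓞 K)} {δ : 𝓞 K} (hδ : δ ≠ 0)
    (hm : (2 : 𝓞 K) ∈ v.asIdeal → ∃ i l t : 𝓞 K, i ^ 2 = -1 ∧ l = 1 + i ∧ od v l = 1 ∧
      δ - 1 = l ^ 3 * t) :
    aV (cv (δ : K)) v = tr δ v ∧ eV (cv (δ : K)) v = dt δ v := by
  by_cases h2 : (2 : 𝓞 K) ∈ v.asIdeal
  · obtain ⟨i, l, t, hi, hl, hv, ht⟩ := hm h2
    obtain ⟨e1, e2⟩ := two_F hi hl hv ht
    unfold tr dt
    rw [dif_neg (fun h => h.1 h2), if_neg (fun h => h.1 h2)]
    exact ⟨e1, e2⟩
  · by_cases hg : GoodAt δ v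
    · obtain ⟨r, z, z', hz, hr, h⟩ := hg
      obtain ⟨e1, e2⟩ := good_F h2 hδ hr hz h
      obtain ⟨e3, e4⟩ := tr_val h2 hδ hr hz h
      rw [e1, e2, e3, e4]
      exact ⟨rfl, rfl⟩
    · have h3 : ¬ 2 ∣ od v δ := fun h => hg ((good_iff hδ v).2 h)
      obtain ⟨e1, e2⟩ := add_F hδ h2 h3
      have hn : ¬ ((2 : 𝓞 K) ∉ v.asIdeal ∧ GoodAt δ v) := fun h => hg h.2
      unfold tr dt
      rw [dif_neg hn, if_neg hn]
      exact ⟨e1, e2⟩

end places

end Pool.Agent.H691.MI
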