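import Pool.Agent.Run7.h691.MI.Lf

/-!
# Towers of quadratic extensions: the Euler products

After `Pool/Agent/Run7/h707/TE/{Glob,Tow}` (helper707).
-/

set_option autoImplicit false
set_option linter.unusedVariables false
set_option linter.unusedSectionVars false
set_option linter.style.haveILetI false

open scoped Classical

namespace Pool.Agent.H691.MI

open Finset NumberField IsDedekindDomain Polynomial IntermediateField
open Pool.Agent.W189.NF hiding redMap
open Pool.Agent.H921R2.TatePole (nm two_le_nm nm_summable)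
open Pool.Agent.Y696 (HBd coeff_bd)

section gen
variable {K : Type} [Field K] [NumberField K]

/-- the power series of a factor -/
noncomputable def ps (a e : ℤ) : PowerSeries ℤ := PowerSeries.invOfUnit
  ((1 - Polynomial.C a * Polynomial.X + Polynomial.C e * Polynomial.X ^ 2 :
      Polynomial ℤ) : PowerSeries ℤ) 1

theorem fdata_gen {a e : HeightOneSpectrum (𝓞 K) → ℤ}
    (hE : ∀ v : HeightOneSpectrum (𝓞 K), HBd (a v) (e v) (nm v)) {σ : ℝ}
    (hσ : 3 / 2 < σ) : FData (fun v : HeightOneSpectrum (𝓞 K) => nm v)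
      (fun v => ps (a v) (e v)) σ where
  two_le := two_le_nm
  north := northcott_nm
  const := fun v => by
    rw [← PowerSeries.coeff_zero_eq_constantCoeff]
    exact (inv_coeff (a v) (e v)).1
  sum := by
    have hg : Summable fun n : ℕ => ((n : ℝ) + 2) * (1 / 2 : ℝ) ^ n := by
      have g1 := summable_pow_mul_geometric_of_norm_lt_one (R := ℝ) 1 (r := 1 / 2)
        (by rw [Real.norm_eq_abs]; norm_num [abs_of_pos])
      have g2 := summable_geometric_of_lt_one (r := (1 / 2 : ℝ)) (by norm_num) (by norm_num)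
      refine (g1.add (g2.mul_left 2)).congr fun n => ?_
      ring
    have h1 := ((nm_summable (K := K) (x := σ - 1 / 2) (by linarith))).mul_of_nonneg hg
      (fun v => by positivity) (fun n => by positivity)
    refine Summable.of_nonneg_of_le (fun x => by positivity) (fun x => ?_) h1
    obtain ⟨v, n⟩ := x
    simp only
    have hq2 : (2 : ℝ) ≤ nm v := by exact_mod_cast two_le_nm v
    have hq0 : (0 : ℝ) < nm v := by linarith
    obtain ⟨e0, e1, e2⟩ := inv_coeff (a v) (e v)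
    have h3 := coeff_bd (hE v) (c := fun k => (ps (a v) (e v)).coeff k) e0 e1 e2 (n + 1)
    have h4 : (nm v : ℝ) ^ (-(σ * (n + 1))) = ((nm v : ℝ) ^ (-σ)) ^ (n + 1) := by
      rw [← Real.rpow_natCast, ← Real.rpow_mul hq0.le]
      congr 1
      push_cast
      ring
    rw [h4]
    set y := (nm v : ℝ) ^ (-(σ - 1 / 2)) with hy
    have hy0 : 0 ≤ y := by positivity
    have h5 : Real.sqrt (nm v) * (nm v : ℝ) ^ (-σ) = y := by
      rw [hy, Real.sqrt_eq_rpow, ← Real.rpow_add hq0]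
      congr 1
      ring
    have hy1 : y ≤ 1 / 2 := by
      calc y ≤ (nm v : ℝ) ^ (-1 : ℝ) :=
            Real.rpow_le_rpow_of_exponent_le (by linarith) (by linarith)
        _ = (nm v : ℝ)⁻¹ := Real.rpow_neg_one _
        _ ≤ 2⁻¹ := inv_anti₀ (by norm_num) hq2
        _ = 1 / 2 := by norm_num
    calc |(((ps (a v) (e v)).coeff (n + 1) : ℤ) : ℝ)| * ((nm v : ℝ) ^ (-σ)) ^ (n + 1) ≤
        (((n + 1 : ℕ) : ℝ) + 1) * Real.sqrt (nm v) ^ (n + 1) * ((nm v : ℝ) ^ (-σ)) ^ (n + 1) := by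
          gcongr
      _ = ((n : ℝ) + 2) * (Real.sqrt (nm v) * (nm v : ℝ) ^ (-σ)) ^ (n + 1) := by
          rw [mul_pow]; push_cast; ring
      _ = y * (((n : ℝ) + 2) * y ^ n) := by rw [h5, pow_succ]; ring
      _ ≤ y * (((n : ℝ) + 2) * (1 / 2) ^ n) := by gcongr

/-- **the Euler product converges to the right of `3/2`** -/
theorem hp_gen {a e : HeightOneSpectrum (𝓞 K) → ℤ}
    (hE : ∀ v : HeightOneSpectrum (𝓞 K), HBd (a v) (e v) (nm v)) {s : ℂ} (hs : 3 / 2 < s.re) :
    ∃ P : ℂ, HasProd (fun v : HeightOneSpectrum (𝓞 K) =>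
      (1 - (a v : ℂ) * (nm v : ℂ) ^ (-s) + (e v : ℂ) * ((nm v : ℂ) ^ (-s)) ^ 2)⁻¹) P := by
  have h1 := (fdata_gen hE hs).main (s := s) le_rfl
  have h3 : (fun v : HeightOneSpectrum (𝓞 K) =>
      (1 - (a v : ℂ) * (nm v : ℂ) ^ (-s) + (e v : ℂ) * ((nm v : ℂ) ^ (-s)) ^ 2)⁻¹) =
      fun v => ∑' k : ℕ, ((ps (a v) (e v)).coeff k : ℂ) * ((nm v : ℂ) ^ (-s)) ^ k := by
    funext v
    obtain ⟨e0, e1, e2⟩ := inv_coeff (a v) (e v)
    refine (rec_sum (c := fun k => (ps (a v) (e v)).coeff k) e0 e1 e2 ?_).symm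
    have h4 := (fdata_gen hE hs).single v (τ := s.re) le_rfl
    refine Summable.of_norm_bounded h4 fun k => ?_
    have hq0 : (0 : ℝ) ≤ nm v := by positivity
    rw [norm_mul, norm_pow, Complex.norm_intCast,
      Complex.norm_natCast_cpow_of_pos (by have := two_le_nm v; omega)]
    apply le_of_eq
    congr 1
    rw [Complex.neg_re, ← Real.rpow_natCast, ← Real.rpow_mul hq0]
    congr 1
    ring
  rw [h3]
  exact ⟨_, h1.2⟩


theorem hp_lf (δ : 𝓞 K) {s : ℂ} (hs : 3 / 2 < s.re) :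
    ∃ P : ℂ, HasProd (fun v : HeightOneSpectrum (𝓞 K) => lf δ v ((nm v : ℂ) ^ (-s))) P :=
  hp_gen (a := fun v => tr δ v) (e := fun v => dt δ v) (hbd_lf δ) hs

end gen

section step
variable {K : Type} [Field K] [NumberField K] {N : Type} [Field N] [NumberField N] [Algebra K N]

/-- **One step of the tower: the Euler products.** -/
theorem step_glob (h2f : Module.finrank K N = 2) {b : 𝓞 K}
    (hb : b ≠ 0) {θ : 𝓞 N} (hθ : θ ^ 2 = algebraMap (𝓞 K) (𝓞 N) b) (τ : 𝓞 N ≃ₐ[𝓞 K] 𝓞 N)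
    (hτ : τ θ = -θ) {δ : 𝓞 K} (hδ : δ ≠ 0) {s : ℂ}
    (hs : 3 / 2 < s.re) {L : Fin 2 → ℂ}
    (hL : ∀ i : Fin 2, HasProd (fun v : HeightOneSpectrum (𝓞 K) =>
      lf (δ * b ^ (i : ℕ)) v ((nm v : ℂ) ^ (-s))) (L i)) :
    HasProd (fun w : HeightOneSpectrum (𝓞 N) =>
      lf (algebraMap (𝓞 K) (𝓞 N) δ) w ((nm w : ℂ) ^ (-s))) (∏ i, L i) := by
  obtain ⟨P, hP⟩ := hp_lf (algebraMap (𝓞 K) (𝓞 N) δ) hs
  have h1 := hasProd_fib (K := K) hP
  have h2 : (fun v : HeightOneSpectrum (𝓞 K) => ∏ w : Fib N v,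
      lf (algebraMap (𝓞 K) (𝓞 N) δ) w.1 ((nm w.1 : ℂ) ^ (-s))) =
      fun v => ∏ i : Fin 2, lf (δ * b ^ (i : ℕ)) v ((nm v : ℂ) ^ (-s)) := by
    funext v
    rw [step_loc h2f hb hθ τ hτ hδ v (-s), Fin.prod_univ_two]
    have e0 : δ * b ^ ((0 : Fin 2) : ℕ) = δ := by
      show δ * b ^ 0 = δ
      rw [pow_zero, mul_one]
    have e1 : δ * b ^ ((1 : Fin 2) : ℕ) = δ * b := by
      show δ * b ^ 1 = δ * b
      rw [pow_one]
    rw [e0, e1]
  rw [h2] at h1
  have h3 := hasProd_prod (s := (univ : Finset (Fin 2))) fun i _ => hL i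
  rw [← h1.unique h3]
  exact hP

/-- an extension of degree one -/
theorem triv_glob (h1f : Module.finrank K N = 1) {δ : 𝓞 K}
    (hδ : δ ≠ 0) {s : ℂ} (hs : 3 / 2 < s.re) {L : ℂ}
    (hL : HasProd (fun v : HeightOneSpectrum (𝓞 K) => lf δ v ((nm v : ℂ) ^ (-s))) L) :
    HasProd (fun w : HeightOneSpectrum (𝓞 N) =>
      lf (algebraMap (𝓞 K) (𝓞 N) δ) w ((nm w : ℂ) ^ (-s))) L := by
  obtain ⟨P, hP⟩ := hp_lf (algebraMap (𝓞 K) (𝓞 N) δ) hs
  have h1 := hasProd_fib (K := K) hP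
  have h2 : (fun v : HeightOneSpectrum (𝓞 K) => ∏ w : Fib N v,
      lf (algebraMap (𝓞 K) (𝓞 N) δ) w.1 ((nm w.1 : ℂ) ^ (-s))) =
      fun v => lf δ v ((nm v : ℂ) ^ (-s)) := by
    funext v
    have h3 := sum_fib (N := N) v
    rw [h1f] at h3
    obtain ⟨w₀⟩ := exists_fib (N := N) v (by omega)
    rw [← Finset.add_sum_erase univ _ (mem_univ w₀)] at h3
    have h5 : 0 < ram w₀ * fdeg w₀ := Nat.mul_pos (ram_pos _) (fdeg_pos _)
    have huni : ∀ w : Fib N v, w = w₀ := by
      intro w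
      by_contra h
      have h8 : ram w * fdeg w ≤ ∑ x ∈ univ.erase w₀, ram x * fdeg x :=
        Finset.single_le_sum (f := fun x : Fib N v => ram x * fdeg x) (fun _ _ => Nat.zero_le _)
          (mem_erase.2 ⟨h, mem_univ _⟩)
      have h9 : 0 < ram w * fdeg w := Nat.mul_pos (ram_pos _) (fdeg_pos _)
      omega
    have h6 : ram w₀ * fdeg w₀ = 1 := by omega
    have hram : ram w₀ = 1 := Nat.eq_one_of_mul_eq_one_right h6
    have hf : fdeg w₀ = 1 := Nat.eq_one_of_mul_eq_one_left h6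
    have hnm : nm w₀.1 = nm v := by rw [nm_fib w₀, hf, pow_one]
    rw [Fintype.prod_eq_single w₀ fun w hw => absurd (huni w) hw, hnm]
    by_cases h2v : (2 : 𝓞 K) ∈ v.asIdeal
    · rw [lf_two h2v, lf_two]
      have := (mem_fib w₀ (2 : 𝓞 K)).2 h2v
      rwa [map_ofNat] at this
    · by_cases hvδ : 2 ∣ od v δ
      · obtain ⟨r, y, y', hy, hr, h⟩ := (good_iff hδ v).2 hvδ
        rw [lf_val h2v hδ hr hy h, lf_one h2v w₀ hf
          (z := algebraMap (𝓞 K) (𝓞 N) y) (z' := algebraMap (𝓞 K) (𝓞 N) y')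
          (alg_ne hδ) hr (alg_ne hy) (by rw [← map_pow, ← map_mul, h, map_mul, map_pow])]
      · rw [lf_bad hδ hvδ, lf_bad (alg_ne hδ) (by rw [od_fib w₀ hδ, hram, one_mul]; exact hvδ)]
  rw [h2] at h1
  rw [← h1.unique hL]
  exact hP

end step

section kummer
variable {K : Type} [Field K] [CharZero K] {N : Type} [Field N] [Algebra K N]

/-- **Kummer's lemma**: an element of `K` that becomes a square in `K(√b)` is a square times a power
of `b`. -/
theorem kum {b : K} (hb : b ≠ 0) {θ : N}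
    (hθ : θ ^ 2 = algebraMap K N b) (hgen : ∀ y : N, ∃ f : K[X], y = aeval θ f) (τ : N ≃ₐ[K] N)
    (hτ : τ θ = -θ) {x : K} {y : N}
    (hy : y ^ 2 = algebraMap K N x) :
    ∃ m : ZMod 2, ∃ z : K, z ^ 2 = b ^ m.val * x := by
  have : CharZero N := charZero_of_injective_algebraMap (algebraMap K N).injective
  -- the projection
  have hS : ∀ f : K[X], ∃ c : K, aeval θ f + τ (aeval θ f) = algebraMap K N c := by
    intro f
    induction f using Polynomial.induction_on' with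
    | add p q hp hq =>
      obtain ⟨c, hc⟩ := hp
      obtain ⟨d, hd⟩ := hq
      refine ⟨c + d, ?_⟩
      rw [map_add (algebraMap K N), ← hc, ← hd]
      simp only [map_add]
      ring
    | monomial n a =>
      have e1 : aeval θ (monomial n a) = algebraMap K N a * θ ^ n := by
        rw [aeval_monomial]
      have e2 : τ (aeval θ (monomial n a)) = algebraMap K N a * (-θ) ^ n := by
        rw [e1, map_mul, τ.commutes, map_pow, hτ]
      rw [e2, e1]
      obtain ⟨q, hq | hq⟩ : ∃ q : ℕ, n = 2 * q ∨ n = 2 * q + 1 := ⟨n / 2, by omega⟩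
      · refine ⟨2 * (a * b ^ q), ?_⟩
        rw [hq, pow_mul, pow_mul, neg_sq, hθ, map_mul, map_mul, map_pow, map_ofNat]
        ring
      · refine ⟨0, ?_⟩
        rw [hq, pow_succ, pow_succ (-θ), pow_mul, pow_mul, neg_sq, map_zero]
        ring
  have hfix : ∀ u : N, τ u = u → ∃ c : K, u = algebraMap K N c := by
    intro u hu
    obtain ⟨f, hf⟩ := hgen u
    obtain ⟨c, hc⟩ := hS f
    rw [← hf, hu] at hc
    refine ⟨c / 2, ?_⟩
    rw [map_div₀, map_ofNat, ← hc]
    field_simp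
    ring
  have h1 : (τ y - y) * (τ y + y) = 0 := by
    have h2 : (τ y) ^ 2 = y ^ 2 := by
      rw [← map_pow, hy, τ.commutes]
    linear_combination h2
  have key : ∀ m : ZMod 2, τ (θ ^ m.val * y) = θ ^ m.val * y → ∃ m : ZMod 2, ∃ z : K,
      z ^ 2 = b ^ m.val * x := by
    intro m hm
    obtain ⟨c, hc⟩ := hfix _ hm
    refine ⟨m, c, (algebraMap K N).injective ?_⟩
    rw [map_pow, ← hc, map_mul, mul_pow, hy, map_pow, ← hθ]
    ring
  rcases mul_eq_zero.1 h1 with h | h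
  · refine key 0 ?_
    rw [ZMod.val_zero, pow_zero, one_mul]
    exact sub_eq_zero.1 h
  · refine key 1 ?_
    have : (1 : ZMod 2).val = 1 := rfl
    rw [this, pow_one, map_mul, hτ, eq_neg_of_add_eq_zero_left h]
    ring

/-- the field generated by a square root -/
theorem ex_step {F : Type} [Field F] [Algebra K F] {b : K}
    (hb : ∀ y : K, y ^ 2 ≠ b) {θ : F} (hθ : θ ^ 2 = algebraMap K F b) :
    FiniteDimensional K K⟮θ⟯ ∧ Module.finrank K K⟮θ⟯ = 2 ∧
    (∀ y : K⟮θ⟯, ∃ f : K[X], y = aeval (AdjoinSimple.gen K θ) f) ∧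
    ∃ τ : K⟮θ⟯ ≃ₐ[K] K⟮θ⟯, τ (AdjoinSimple.gen K θ) = -AdjoinSimple.gen K θ := by
  have hirr : Irreducible (X ^ 2 - C b : K[X]) := X_pow_sub_C_irreducible_of_prime Nat.prime_two hb
  have hmon : (X ^ 2 - C b : K[X]).Monic := monic_X_pow_sub_C b (by norm_num)
  have hint : IsIntegral K θ := ⟨X ^ 2 - C b, hmon, by
    rw [eval₂_sub, eval₂_pow, eval₂_X, eval₂_C, hθ, sub_self]⟩
  have hmin : minpoly K θ = X ^ 2 - C b := by
    refine (minpoly.eq_of_irreducible_of_monic hirr ?_ hmon).symm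
    rw [map_sub, map_pow, aeval_X, aeval_C, hθ, sub_self]
  have hfd : FiniteDimensional K K⟮θ⟯ := adjoin.finiteDimensional hint
  refine ⟨hfd, ?_, ?_, ?_⟩
  · rw [adjoin.finrank hint, hmin, natDegree_X_pow_sub_C]
  · intro y
    exact (adjoin.powerBasis hint).exists_eq_aeval' y
  · have hgen2 : (AdjoinSimple.gen K θ) ^ 2 = algebraMap K K⟮θ⟯ b := by
      apply Subtype.ext
      rw [SubmonoidClass.coe_pow, AdjoinSimple.coe_gen, hθ]
      rfl
    have h1 : aeval (-AdjoinSimple.gen K θ)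
        (minpoly K (adjoin.powerBasis hint).gen) = 0 := by
      rw [adjoin.powerBasis_gen, minpoly_gen, hmin, map_sub, map_pow, aeval_X, aeval_C, neg_sq,
        hgen2, sub_self]
    have h2 := PowerBasis.lift_gen (adjoin.powerBasis hint) _ h1
    rw [adjoin.powerBasis_gen] at h2
    refine ⟨AlgEquiv.ofBijective _ (AlgHom.bijective ((adjoin.powerBasis hint).lift _ h1)), ?_⟩
    rw [AlgEquiv.coe_ofBijective]
    exact h2

theorem ex_step' {F : Type} [Field F] [Algebra K F] {b : K}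
    (hb : ∀ y : K, y ^ 2 ≠ b) {θ : F} (hθ : θ ^ 2 = algebraMap K F b) :
    ∃ N : IntermediateField K F, FiniteDimensional K N ∧ Module.finrank K N = 2 ∧
    ∃ g : N, algebraMap N F g = θ ∧ g ^ 2 = algebraMap K N b ∧
      (∀ y : N, ∃ f : K[X], y = aeval g f) ∧
      ∃ τ : N ≃ₐ[K] N, τ g = -g := by
  obtain ⟨hfd, h3f, hpb, τ, hτ⟩ := ex_step (F := F) hb hθ
  refine ⟨K⟮θ⟯, hfd, h3f, AdjoinSimple.gen K θ, AdjoinSimple.algebraMap_gen K θ, ?_, hpb, τ, hτ⟩
  apply Subtype.ext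
  rw [SubmonoidClass.coe_pow, AdjoinSimple.coe_gen, hθ]
  rfl

end kummer

section tower

theorem coe_pw {K : Type} [Field K] (x : 𝓞 K) (n : ℕ) : ((x ^ n : 𝓞 K) : K) = (x : K) ^ n := rfl

theorem coe_ml {K : Type} [Field K] (x y : 𝓞 K) : ((x * y : 𝓞 K) : K) = (x : K) * (y : K) := rfl

theorem tower (r : ℕ) : ∀ (K F : Type) [Field K] [NumberField K] [Field F] [NumberField F]
    [Algebra K F] (β : Fin r → 𝓞 K) (hβ : ∀ i, β i ≠ 0)
    (hind : ∀ ν : Fin r → ZMod 2, ν ≠ 0 → ∀ y : K, y ^ 2 ≠ ∏ i, (β i : K) ^ (ν i).val)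
    (θ : Fin r → 𝓞 F) (hθ : ∀ i, θ i ^ 2 = algebraMap (𝓞 K) (𝓞 F) (β i))
    (hgen : ∀ S : Subfield F, (∀ k : K, algebraMap K F k ∈ S) → (∀ i, (θ i : F) ∈ S) → S = ⊤),
    Module.finrank K F = 2 ^ r ∧
    ∀ (δ : 𝓞 K) (hδ : δ ≠ 0) (s : ℂ) (hs : 3 / 2 < s.re) (L : (Fin r → ZMod 2) → ℂ)
      (hL : ∀ ν : Fin r → ZMod 2, HasProd (fun v : HeightOneSpectrum (𝓞 K) =>
        lf (δ * ∏ i, β i ^ (ν i).val) v ((nm v : ℂ) ^ (-s))) (L ν)),
      HasProd (fun w : HeightOneSpectrum (𝓞 F) =>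
        lf (algebraMap (𝓞 K) (𝓞 F) δ) w ((nm w : ℂ) ^ (-s))) (∏ ν, L ν) := by
  induction r with
  | zero =>
    intro K F _ _ _ _ _ β hβ hind θ hθ hgen
    have h1 : Module.finrank K F = 1 := by
      have h2 := hgen (algebraMap K F).fieldRange (fun k => ⟨k, rfl⟩) (fun i => i.elim0)
      have h3 : Function.Surjective (algebraMap K F) := fun y => by
        have : y ∈ (algebraMap K F).fieldRange := by rw [h2]; trivial
        exact this
      exact finrank_eq_one_iff_of_nonzero' (1 : F) one_ne_zero |>.2 fun w => by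
        obtain ⟨c, hc⟩ := h3 w
        exact ⟨c, by rw [Algebra.smul_def, mul_one, hc]⟩
    refine ⟨by rw [h1, pow_zero], ?_⟩
    intro δ hδ s hs L hL
    have h2 := hL default
    rw [Finset.univ_eq_empty, Finset.prod_empty, mul_one] at h2
    rw [Fintype.prod_subsingleton _ (default : Fin 0 → ZMod 2)]
    exact triv_glob h1 hδ hs h2
  | succ r ih =>
    intro K F _ _ _ _ _ β hβ hind θ hθ hgen
    have hb0 : ∀ y : K, y ^ 2 ≠ (β 0 : K) := by
      intro y hy
      refine hind (Pi.single 0 1) (fun h => ?_) y ?_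
      · have := congrFun h 0
        rw [Pi.single_eq_same] at this
        exact one_ne_zero this
      · rw [Fin.prod_univ_succ, Pi.single_eq_same, ZMod.val_one, pow_one, Finset.prod_eq_one, mul_one,
          hy]
        intro i _
        rw [Pi.single_eq_of_ne (Fin.succ_ne_zero i), ZMod.val_zero, pow_zero]
    have hθK : ∀ i, (θ i : F) ^ 2 = algebraMap K F (β i) := by
      intro i
      have := congrArg (fun x : 𝓞 F => (x : F)) (hθ i)
      exact this
    have hbK0 : (β 0 : K) ≠ 0 := fun h => hβ 0 (RingOfIntegers.ext h)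
    obtain ⟨N, hfd, h3f, gN, hgF, hg3, hpb, τ, hτ⟩ := ex_step' (F := F) hb0 (hθK 0)
    have hNF : NumberField N := NumberField.of_module_finite K N
    -- the generator
    have hgint : IsIntegral ℤ gN := by
      refine IsIntegral.of_pow (n := 2) (by norm_num) ?_
      rw [hg3]
      exact ((β 0).isIntegral_coe).map (algebraMap K N).toIntAlgHom
    obtain ⟨g, hgc⟩ : ∃ g : 𝓞 N, (g : N) = gN := ⟨⟨gN, hgint⟩, rfl⟩
    have hgθ : algebraMap (𝓞 N) (𝓞 F) g = θ 0 := by
      apply RingOfIntegers.ext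
      show algebraMap N F (g : N) = _
      rw [hgc]
      exact hgF
    have hg3' : g ^ 2 = algebraMap (𝓞 K) (𝓞 N) (β 0) := by
      apply RingOfIntegers.ext
      rw [coe_pw, hgc]
      exact hg3
    have hτ' : RingOfIntegers.mapAlgEquiv τ g = -g := by
      apply RingOfIntegers.ext
      show τ (g : N) = -(g : N)
      rw [hgc]
      exact hτ
    -- the induction hypothesis over `N`
    have halg : ∀ x : 𝓞 K, algebraMap (𝓞 N) (𝓞 F) (algebraMap (𝓞 K) (𝓞 N) x) =
        algebraMap (𝓞 K) (𝓞 F) x := fun x => (IsScalarTower.algebraMap_apply _ _ _ _).symm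
    have hβN : ∀ i : Fin r, algebraMap (𝓞 K) (𝓞 N) (β i.succ) ≠ 0 := fun i => alg_ne (hβ i.succ)
    have hindN : ∀ ν : Fin r → ZMod 2, ν ≠ 0 → ∀ y : N,
        y ^ 2 ≠ ∏ i, ((algebraMap (𝓞 K) (𝓞 N) (β i.succ) : 𝓞 N) : N) ^ (ν i).val := by
      intro ν hν y hy
      have h1 : algebraMap K N (∏ i : Fin r, (β i.succ : K) ^ (ν i).val) = y ^ 2 := by
        rw [hy, map_prod]
        refine Finset.prod_congr rfl fun i _ => ?_
        rw [map_pow]
        rfl
      obtain ⟨m, z, hz⟩ := kum hbK0 hg3 hpb τ hτ (x := ∏ i : Fin r, (β i.succ : K) ^ (ν i).val)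
        h1.symm
      refine hind (Fin.cons m ν) (fun h => hν ?_) z ?_
      · funext i
        exact congrFun h i.succ
      · rw [hz, Fin.prod_univ_succ]
        rfl
    have hgenN : ∀ S : Subfield F, (∀ k : N, algebraMap N F k ∈ S) →
        (∀ i : Fin r, (θ i.succ : F) ∈ S) → S = ⊤ := by
      intro S hS hS'
      refine hgen S (fun k => ?_) (fun i => ?_)
      · rw [IsScalarTower.algebraMap_apply K N F]
        exact hS _
      · refine Fin.cases ?_ (fun j => hS' j) i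
        rw [← hgF]
        exact hS _
    obtain ⟨hd, hE⟩ := ih N F
      (fun i => algebraMap (𝓞 K) (𝓞 N) (β i.succ)) hβN hindN (fun i => θ i.succ)
      (fun i => by rw [hθ i.succ, halg]) hgenN
    refine ⟨?_, ?_⟩
    · rw [← Module.finrank_mul_finrank K N F, h3f, hd, pow_succ, mul_comm]
    · intro δ hδ s hs L hL
      have h1 := hE (algebraMap (𝓞 K) (𝓞 N) δ) (alg_ne hδ) s hs
        (fun ν => ∏ i : Fin 2, L (Fin.cons (show ZMod 2 from i) ν)) ?_
      · rw [halg] at h1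
        have h2 : ∏ ν : Fin (r + 1) → ZMod 2, L ν =
            ∏ ν : Fin r → ZMod 2, ∏ i : Fin 2, L (Fin.cons (show ZMod 2 from i) ν) := by
          rw [← (Fin.consEquiv (fun _ : Fin (r + 1) => ZMod 2)).prod_comp, Fintype.prod_prod_type,
            Finset.prod_comm]
          rfl
        rw [h2]
        exact h1
      · intro ν
        have h3 : algebraMap (𝓞 K) (𝓞 N) δ * ∏ i, algebraMap (𝓞 K) (𝓞 N) (β i.succ) ^ (ν i).val =
            algebraMap (𝓞 K) (𝓞 N) (δ * ∏ i : Fin r, β i.succ ^ (ν i).val) := by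
          rw [map_mul, map_prod]
          simp only [map_pow]
        rw [h3]
        refine step_glob h3f (hβ 0) hg3' (RingOfIntegers.mapAlgEquiv τ) hτ'
          (mul_ne_zero hδ (Finset.prod_ne_zero_iff.2 fun i _ => pow_ne_zero _ (hβ i.succ))) hs ?_
        intro i
        have h4 := hL (Fin.cons (show ZMod 2 from i) ν)
        rw [Fin.prod_univ_succ] at h4
        have h5 : (Fin.cons (show ZMod 2 from i) ν : Fin (r + 1) → ZMod 2) 0 = i := rfl
        have h6 : ∀ j : Fin r, (Fin.cons (show ZMod 2 from i) ν : Fin (r + 1) → ZMod 2) j.succ = ν j :=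
          fun j => rfl
        simp only [h6] at h4
        have h7 : δ * (β 0 ^ ((Fin.cons (show ZMod 2 from i) ν : Fin (r + 1) → ZMod 2) 0).val *
            ∏ j : Fin r, β j.succ ^ (ν j).val) =
            δ * (∏ j : Fin r, β j.succ ^ (ν j).val) * β 0 ^ (i : ℕ) := by
          have : ((Fin.cons (show ZMod 2 from i) ν : Fin (r + 1) → ZMod 2) 0).val = (i : ℕ) := rfl
          rw [this]
          ring
        rw [h7] at h4
        exact h4

end tower

end Pool.Agent.H691.MI
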