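import Pool.Agent.Run7.h691.MI.Mod
import Pool.Agent.Run7.h691.MI.Tow

/-!
# The points of `y² = x³ - δ² x` over towers of quadratic extensions
-/

set_option autoImplicit false
set_option linter.unusedVariables false
set_option linter.unusedSectionVars false

open scoped Classical

namespace Pool.Agent.H691.MI

open Finset Polynomial IntermediateField WeierstrassCurve

/-- all the affine points are of order two -/
def T2 {K : Type} [Field K] (δ : K) : Prop := ∀ x y : K, y ^ 2 = x ^ 3 - δ ^ 2 * x → y = 0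

section
variable {K : Type} [Field K] [CharZero K]

theorem t2_nsq {i : K} (hi : i ^ 2 = -1) {δ : K} (hδ : δ ≠ 0) (h : T2 δ) (s : K) : s ^ 2 ≠ δ := by
  intro hs
  have h1 := h (i * δ) (i * (1 + i) * s ^ 3) (by
    have e : (s ^ 3) ^ 2 = δ ^ 3 := by rw [← hs]; ring
    rw [mul_pow, e]
    linear_combination (δ ^ 3 * (i ^ 2 + i)) * hi)
  have hs0 : s ≠ 0 := by
    rintro rfl
    apply hδ
    rw [← hs]
    ring
  have hi0 : i ≠ 0 := by
    rintro rfl
    have : (1 : K) = 0 := by linear_combination hi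
    exact one_ne_zero this
  have hi1 : 1 + i ≠ 0 := by
    intro h2
    have : (2 : K) = 0 := by linear_combination hi - (i - 1) * h2
    exact two_ne_zero this
  exact mul_ne_zero (mul_ne_zero hi0 hi1) (pow_ne_zero 3 hs0) h1

variable {N : Type} [Field N] [Algebra K N]

/-- the fixed elements of a quadratic extension -/
theorem fix_alg {b : K} {θ : N}
    (hθ : θ ^ 2 = algebraMap K N b) (hgen : ∀ y : N, ∃ f : K[X], y = aeval θ f) (τ : N ≃ₐ[K] N)
    (hτ : τ θ = -θ) {u : N} (hu : τ u = u) : ∃ c : K, u = algebraMap K N c := by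
  have : CharZero N := charZero_of_injective_algebraMap (algebraMap K N).injective
  have hS : ∀ f : K[X], ∃ c : K, aeval θ f + τ (aeval θ f) = algebraMap K N c := by
    intro f
    induction f using Polynomial.induction_on' with
    | add p q hp hq =>
      obtain ⟨c, hc⟩ := hp
      obtain ⟨d, hd⟩ := hq
      refine ⟨c + d, ?_⟩
      rw [map_add (algebraMap K N), ← hc, ← hd]
      simp only [map_add]
      ring
    | monomial n a =>
      have e1 : aeval θ (monomial n a) = algebraMap K N a * θ ^ n := by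
        rw [aeval_monomial]
      have e2 : τ (aeval θ (monomial n a)) = algebraMap K N a * (-θ) ^ n := by
        rw [e1, map_mul, τ.commutes, map_pow, hτ]
      rw [e2, e1]
      obtain ⟨q, hq | hq⟩ : ∃ q : ℕ, n = 2 * q ∨ n = 2 * q + 1 := ⟨n / 2, by omega⟩
      · refine ⟨2 * (a * b ^ q), ?_⟩
        rw [hq, pow_mul, pow_mul, neg_sq, hθ, map_mul, map_mul, map_pow, map_ofNat]
        ring
      · refine ⟨0, ?_⟩
        rw [hq, pow_succ, pow_succ (-θ), pow_mul, pow_mul, neg_sq, map_zero]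
        ring
  obtain ⟨f, hf⟩ := hgen u
  obtain ⟨c, hc⟩ := hS f
  rw [← hf, hu] at hc
  refine ⟨c / 2, ?_⟩
  rw [map_div₀, map_ofNat, ← hc]
  field_simp
  ring

theorem tau_tau {θ : N} (hgen : ∀ y : N, ∃ f : K[X], y = aeval θ f) (τ : N ≃ₐ[K] N)
    (hτ : τ θ = -θ) (y : N) : τ (τ y) = y := by
  obtain ⟨f, rfl⟩ := hgen y
  have h1 : τ (aeval θ f) = aeval (τ θ) f := (Polynomial.aeval_algHom_apply τ θ f).symm
  have h2 : τ (aeval (τ θ) f) = aeval (τ (τ θ)) f := (Polynomial.aeval_algHom_apply τ (τ θ) f).symm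
  rw [h1, h2, hτ, map_neg, hτ, neg_neg]

/-- a point of order four -/
theorem four_sq {i : N} (hi : i ^ 2 = -1) {δ x y ℓ t : N} (h2 : (2 : N) ≠ 0) (hδ : δ ≠ 0) (hy : y ≠ 0)
    (hxy : y ^ 2 = x ^ 3 - δ ^ 2 * x) (h1 : 2 * y * ℓ = 3 * x ^ 2 - δ ^ 2) (ht : t = ℓ ^ 2 - 2 * x)
    (hl : ℓ * (t - x) + y = 0) (hc : t ^ 3 - δ ^ 2 * t = 0) : ∃ s : N, s ^ 2 = δ := by
  have hi0 : i ≠ 0 := by
    rintro rfl
    have : (1 : N) = 0 := by linear_combination hi
    exact one_ne_zero this
  have hi1 : 1 + i ≠ 0 := by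
    intro h3
    exact h2 (by linear_combination hi - (i - 1) * h3)
  have hx0 : x ≠ 0 := by
    rintro rfl
    apply hy
    have : y ^ 2 = 0 := by rw [hxy]; ring
    exact pow_eq_zero_iff (two_ne_zero) |>.1 this
  have key : x ^ 2 - 2 * t * x - 2 * t ^ 2 + δ ^ 2 = 0 := by
    linear_combination h1 - 2 * ℓ * hl - 2 * (t - x) * ht
  rcases mul_eq_zero.1 (show t * ((t - δ) * (t + δ)) = 0 by linear_combination hc) with h3 | h3
  · rw [h3] at key
    have h4 : (x - i * δ) * (x + i * δ) = 0 := by linear_combination key - δ ^ 2 * hi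
    rcases mul_eq_zero.1 h4 with h5 | h5
    · have h6 : x = i * δ := sub_eq_zero.1 h5
      refine ⟨y / (i * (1 + i) * δ), ?_⟩
      rw [div_pow, div_eq_iff (pow_ne_zero 2 (mul_ne_zero (mul_ne_zero hi0 hi1) hδ)), hxy, h6]
      linear_combination (-δ ^ 3 * (i ^ 2 + i)) * hi
    · have h6 : x = -(i * δ) := eq_neg_of_add_eq_zero_left h5
      refine ⟨y / ((1 + i) * δ), ?_⟩
      rw [div_pow, div_eq_iff (pow_ne_zero 2 (mul_ne_zero hi1 hδ)), hxy, h6]
      linear_combination (-δ ^ 3 * (i + 1)) * hi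
  rcases mul_eq_zero.1 h3 with h4 | h4
  · have h5 : t = δ := sub_eq_zero.1 h4
    rw [h5] at key
    have h6 : (x - δ) ^ 2 = 2 * δ ^ 2 := by linear_combination key
    have hxd : x - δ ≠ 0 := by
      intro h7
      rw [h7] at h6
      have : 2 * δ ^ 2 = 0 := by rw [← h6]; ring
      exact mul_ne_zero h2 (pow_ne_zero 2 hδ) this
    refine ⟨y * δ / (x * (x - δ)), ?_⟩
    rw [div_pow, div_eq_iff (pow_ne_zero 2 (mul_ne_zero hx0 hxd)), mul_pow, mul_pow, h6, hxy]
    linear_combination (x * δ ^ 2) * key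
  · have h5 : t = -δ := eq_neg_of_add_eq_zero_left h4
    rw [h5] at key
    have h6 : (x + δ) ^ 2 = 2 * δ ^ 2 := by linear_combination key
    have hxd : x + δ ≠ 0 := by
      intro h7
      rw [h7] at h6
      have : 2 * δ ^ 2 = 0 := by rw [← h6]; ring
      exact mul_ne_zero h2 (pow_ne_zero 2 hδ) this
    refine ⟨i * y * δ / (x * (x + δ)), ?_⟩
    rw [div_pow, div_eq_iff (pow_ne_zero 2 (mul_ne_zero hx0 hxd)), mul_pow, mul_pow, mul_pow, h6, hxy,
      hi]
    linear_combination (-x * δ ^ 2) * key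

/-- **The points over a quadratic extension.** -/
theorem t2_step {i : K} (hi : i ^ 2 = -1) {b : K} (hb : b ≠ 0) {g : N}
    (hg : g ^ 2 = algebraMap K N b) (hgen : ∀ y : N, ∃ f : K[X], y = aeval g f) (τ : N ≃ₐ[K] N)
    (hτ : τ g = -g) {δ : K} (hδ : δ ≠ 0) (h1 : T2 δ) (h2 : T2 (δ * b)) :
    T2 (algebraMap K N δ) := by
  have hN : CharZero N := charZero_of_injective_algebraMap (algebraMap K N).injective
  have hinj : Function.Injective (algebraMap K N) := (algebraMap K N).injective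
  have hg0 : g ≠ 0 := by
    rintro rfl
    apply hb
    apply hinj
    rw [← hg, map_zero]
    ring
  have h20 : (2 : N) ≠ 0 := two_ne_zero
  obtain ⟨W, hW⟩ : ∃ W : WeierstrassCurve K, W = cv δ := ⟨_, rfl⟩
  have hWN : W⁄N = cv (algebraMap K N δ) := by
    rw [hW]
    exact cv_map _ _
  have hΔ : (W⁄N).Δ ≠ 0 := by
    rw [hWN, cv_Δ]
    exact mul_ne_zero (by norm_num) (pow_ne_zero 6 ((map_ne_zero_iff _ hinj).2 hδ))
  have heq : ∀ x y : N, (W⁄N).toAffine.Equation x y ↔ y ^ 2 = x ^ 3 - (algebraMap K N δ) ^ 2 * x := by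
    intro x y
    rw [WeierstrassCurve.Affine.equation_iff, hWN]
    unfold cv
    simp only [zero_mul, add_zero]
    constructor <;> intro h <;> linear_combination h
  have hnegY : ∀ x y : N, (W⁄N).toAffine.negY x y = -y := by
    intro x y
    rw [WeierstrassCurve.Affine.negY, hWN]
    unfold cv
    simp
  have hdbl : ∀ {x y : N} (h : (W⁄N).toAffine.Nonsingular x y), y = 0 →
      (Affine.Point.some x y h + Affine.Point.some x y h : (W⁄N).toAffine.Point) = 0 := by
    intro x y h hy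
    apply Affine.Point.add_self_of_Y_eq
    rw [hnegY, hy, neg_zero]
  obtain ⟨σ, hσ⟩ : ∃ σ : (W⁄N).toAffine.Point →+ (W⁄N).toAffine.Point,
      σ = Affine.Point.map (W' := W) (τ : N →ₐ[K] N) := ⟨_, rfl⟩
  have hσs : ∀ {x y : N} (h : (W⁄N).toAffine.Nonsingular x y),
      ∃ h' : (W⁄N).toAffine.Nonsingular (τ x) (τ y),
      σ (Affine.Point.some x y h) = Affine.Point.some (τ x) (τ y) h' := by
    intro x y h
    rw [hσ]
    exact ⟨_, Affine.Point.map_some (W' := W) (τ : N →ₐ[K] N) h⟩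
  have hfixed : ∀ Q : (W⁄N).toAffine.Point, σ Q = Q → Q + Q = 0 := by
    rintro (_ | ⟨x, y, h⟩) hQ
    · exact add_zero _
    · obtain ⟨h', hs⟩ := hσs h
      rw [hs] at hQ
      obtain ⟨e1, e2⟩ := Affine.Point.some.inj hQ
      obtain ⟨x0, hx0⟩ := fix_alg hg hgen τ hτ e1
      obtain ⟨y0, hy0⟩ := fix_alg hg hgen τ hτ e2
      apply hdbl h
      have h3 := (heq x y).1 h.1
      rw [hx0, hy0] at h3
      have h4 : y0 ^ 2 = x0 ^ 3 - δ ^ 2 * x0 := by
        apply hinj
        simp only [map_pow, map_sub, map_mul]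
        exact h3
      rw [hy0, h1 x0 y0 h4, map_zero]
  have hanti : ∀ Q : (W⁄N).toAffine.Point, σ Q = -Q → Q + Q = 0 := by
    rintro (_ | ⟨x, y, h⟩) hQ
    · exact add_zero _
    · obtain ⟨h', hs⟩ := hσs h
      rw [hs, Affine.Point.neg_some] at hQ
      obtain ⟨e1, e2⟩ := Affine.Point.some.inj hQ
      rw [hnegY] at e2
      obtain ⟨x0, hx0⟩ := fix_alg hg hgen τ hτ e1
      obtain ⟨c, hc⟩ := fix_alg hg hgen τ hτ (u := y * g) (by rw [map_mul, e2, hτ]; ring)
      apply hdbl h
      have h3 := (heq x y).1 h.1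
      have h4 : (b * c) ^ 2 = (b * x0) ^ 3 - (δ * b) ^ 2 * (b * x0) := by
        apply hinj
        simp only [map_pow, map_sub, map_mul]
        rw [← hc, ← hx0, ← hg]
        linear_combination (g ^ 6) * h3
      have h5 := h2 _ _ h4
      have h6 : c = 0 := (mul_eq_zero.1 h5).resolve_left hb
      rw [h6, map_zero] at hc
      exact (mul_eq_zero.1 hc).resolve_right hg0
  have hσσ : ∀ Q : (W⁄N).toAffine.Point, σ (σ Q) = Q := by
    rintro (_ | ⟨x, y, h⟩)
    · show σ (σ 0) = 0
      rw [map_zero, map_zero]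
    · obtain ⟨h', hs⟩ := hσs h
      obtain ⟨h'', hs'⟩ := hσs h'
      rw [hs, hs']
      congr 1
      · exact tau_tau hgen τ hτ x
      · exact tau_tau hgen τ hτ y
  intro x y hxy
  by_contra hy
  have hns : (W⁄N).toAffine.Nonsingular x y :=
    (WeierstrassCurve.Affine.equation_iff_nonsingular_of_Δ_ne_zero hΔ).1 ((heq x y).2 hxy)
  obtain ⟨P, hP⟩ : ∃ P : (W⁄N).toAffine.Point, P = Affine.Point.some x y hns := ⟨_, rfl⟩
  have k1 : (P + σ P) + (P + σ P) = 0 := by
    apply hfixed
    rw [map_add, hσσ]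
    exact add_comm _ _
  have k2 : (P - σ P) + (P - σ P) = 0 := by
    apply hanti
    rw [map_sub, hσσ]
    exact (neg_sub _ _).symm
  have k3 : (P + P) + (P + P) = 0 := by
    have : (P + P) + (P + P) = ((P + σ P) + (P + σ P)) + ((P - σ P) + (P - σ P)) := by abel
    rw [this, k1, k2, add_zero]
  have hyn : y ≠ (W⁄N).toAffine.negY x y := by
    rw [hnegY]
    intro h
    exact hy (self_eq_neg.1 h)
  rw [hP, Affine.Point.add_self_of_Y_ne hyn] at k3
  set ℓ := (W⁄N).toAffine.slope x x y y with hℓ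
  have hns2 := WeierstrassCurve.Affine.nonsingular_add hns hns (fun hxy => hyn hxy.right)
  have hY : (W⁄N).toAffine.addY x x y ℓ = 0 := by
    by_contra hcon
    have hne : (W⁄N).toAffine.addY x x y ℓ ≠ (W⁄N).toAffine.negY ((W⁄N).toAffine.addX x x ℓ)
        ((W⁄N).toAffine.addY x x y ℓ) := by
      rw [hnegY]
      intro h
      exact hcon (self_eq_neg.1 h)
    rw [Affine.Point.add_self_of_Y_ne hne] at k3
    exact Affine.Point.some_ne_zero _ k3
  have hslope : 2 * y * ℓ = 3 * x ^ 2 - (algebraMap K N δ) ^ 2 := by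
    rw [hℓ, WeierstrassCurve.Affine.slope_of_Y_ne rfl hyn, hnegY, hWN]
    unfold cv
    field_simp
    ring
  have hX : (W⁄N).toAffine.addX x x ℓ = ℓ ^ 2 - 2 * x := by
    rw [WeierstrassCurve.Affine.addX, hWN]
    unfold cv
    simp only [zero_mul, add_zero, sub_zero]
    ring
  have hY2 : ℓ * ((W⁄N).toAffine.addX x x ℓ - x) + y = 0 := by
    rw [WeierstrassCurve.Affine.addY, hnegY, WeierstrassCurve.Affine.negAddY] at hY
    exact neg_eq_zero.1 hY
  have hcur := (heq _ _).1 hns2.1
  rw [← hℓ, hY] at hcur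
  obtain ⟨s, hs⟩ := four_sq (i := algebraMap K N i) (by rw [← map_pow, hi, map_neg, map_one]) h20
    ((map_ne_zero_iff _ hinj).2 hδ) hy hxy hslope hX hY2 (by linear_combination -hcur)
  obtain ⟨m, z, hz⟩ := kum hb hg hgen τ hτ (x := δ) hs
  have hm : ∀ m : ZMod 2, m = 0 ∨ m = 1 := by decide
  rcases hm m with rfl | rfl
  · rw [ZMod.val_zero, pow_zero, one_mul] at hz
    exact t2_nsq hi hδ h1 z hz
  · have : (1 : ZMod 2).val = 1 := rfl
    rw [this, pow_one, mul_comm] at hz
    exact t2_nsq hi (mul_ne_zero hδ hb) h2 z hz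

end

/-- **The points over a tower.** -/
theorem t2_tower (r : ℕ) : ∀ (K F : Type) [Field K] [CharZero K] [Field F]
    [Algebra K F] (i : K) (hi : i ^ 2 = -1) (β : Fin r → K) (hβ : ∀ i, β i ≠ 0)
    (hind : ∀ ν : Fin r → ZMod 2, ν ≠ 0 → ∀ y : K, y ^ 2 ≠ ∏ i, β i ^ (ν i).val)
    (θ : Fin r → F) (hθ : ∀ i, θ i ^ 2 = algebraMap K F (β i))
    (hgen : ∀ S : Subfield F, (∀ k : K, algebraMap K F k ∈ S) → (∀ i, θ i ∈ S) → S = ⊤)
    (δ : K) (hδ : δ ≠ 0) (h : ∀ ν : Fin r → ZMod 2, T2 (δ * ∏ i, β i ^ (ν i).val)),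
    T2 (algebraMap K F δ) := by
  induction r with
  | zero =>
    intro K F _ _ _ _ i hi β hβ hind θ hθ hgen δ hδ h
    have h2 := hgen (algebraMap K F).fieldRange (fun k => ⟨k, rfl⟩) (fun i => i.elim0)
    have h3 : Function.Surjective (algebraMap K F) := fun y => by
      have : y ∈ (algebraMap K F).fieldRange := by rw [h2]; trivial
      exact this
    have h4 := h default
    rw [Finset.univ_eq_empty, Finset.prod_empty, mul_one] at h4
    intro x y hxy
    obtain ⟨x, rfl⟩ := h3 x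
    obtain ⟨y, rfl⟩ := h3 y
    have h5 : y ^ 2 = x ^ 3 - δ ^ 2 * x := by
      apply (algebraMap K F).injective
      simp only [map_pow, map_sub, map_mul]
      exact hxy
    rw [h4 x y h5, map_zero]
  | succ r ih =>
    intro K F _ _ _ _ i hi β hβ hind θ hθ hgen δ hδ h
    have hb0 : ∀ y : K, y ^ 2 ≠ β 0 := by
      intro y hy
      refine hind (Pi.single 0 1) (fun h => ?_) y ?_
      · have := congrFun h 0
        rw [Pi.single_eq_same] at this
        exact one_ne_zero this
      · rw [Fin.prod_univ_succ, Pi.single_eq_same, ZMod.val_one, pow_one, Finset.prod_eq_one, mul_one,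
          hy]
        intro i _
        rw [Pi.single_eq_of_ne (Fin.succ_ne_zero i), ZMod.val_zero, pow_zero]
    obtain ⟨N, hfd, h3f, gN, hgF, hg3, hpb, τ, hτ⟩ := ex_step' (F := F) hb0 (hθ 0)
    have hNc : CharZero N := charZero_of_injective_algebraMap (algebraMap K N).injective
    have hβN : ∀ i : Fin r, algebraMap K N (β i.succ) ≠ 0 := fun i =>
      (map_ne_zero_iff _ (algebraMap K N).injective).2 (hβ i.succ)
    have hindN : ∀ ν : Fin r → ZMod 2, ν ≠ 0 → ∀ y : N,
        y ^ 2 ≠ ∏ i, (algebraMap K N (β i.succ)) ^ (ν i).val := by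
      intro ν hν y hy
      have h1 : algebraMap K N (∏ i : Fin r, β i.succ ^ (ν i).val) = y ^ 2 := by
        rw [hy, map_prod]
        refine Finset.prod_congr rfl fun i _ => ?_
        rw [map_pow]
      obtain ⟨m, z, hz⟩ := kum (hβ 0) hg3 hpb τ hτ (x := ∏ i : Fin r, β i.succ ^ (ν i).val)
        h1.symm
      refine hind (Fin.cons m ν) (fun h => hν ?_) z ?_
      · funext i
        exact congrFun h i.succ
      · rw [hz, Fin.prod_univ_succ]
        rfl
    have hgenN : ∀ S : Subfield F, (∀ k : N, algebraMap N F k ∈ S) →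
        (∀ i : Fin r, θ i.succ ∈ S) → S = ⊤ := by
      intro S hS hS'
      refine hgen S (fun k => ?_) (fun i => ?_)
      · rw [IsScalarTower.algebraMap_apply K N F]
        exact hS _
      · refine Fin.cases ?_ (fun j => hS' j) i
        rw [← hgF]
        exact hS _
    have hθN : ∀ i : Fin r, θ i.succ ^ 2 = algebraMap N F (algebraMap K N (β i.succ)) := by
      intro i
      rw [← IsScalarTower.algebraMap_apply K N F]
      exact hθ i.succ
    have hfin := ih N F (algebraMap K N i) (by rw [← map_pow, hi, map_neg, map_one])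
      (fun i => algebraMap K N (β i.succ)) hβN hindN (fun i => θ i.succ) hθN hgenN
      (algebraMap K N δ) ((map_ne_zero_iff _ (algebraMap K N).injective).2 hδ) ?_
    · rw [← IsScalarTower.algebraMap_apply K N F] at hfin
      exact hfin
    · intro ν
      have h3 : algebraMap K N δ * ∏ i, algebraMap K N (β i.succ) ^ (ν i).val =
          algebraMap K N (δ * ∏ i : Fin r, β i.succ ^ (ν i).val) := by
        rw [map_mul, map_prod]
        simp only [map_pow]
      rw [h3]
      refine t2_step hi (hβ 0) hg3 hpb τ hτ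
        (mul_ne_zero hδ (Finset.prod_ne_zero_iff.2 fun i _ => pow_ne_zero _ (hβ i.succ))) ?_ ?_
      · have h4 := h (Fin.cons 0 ν)
        rw [Fin.prod_univ_succ] at h4
        simp only [Fin.cons_zero, Fin.cons_succ, ZMod.val_zero, pow_zero, one_mul] at h4
        exact h4
      · have h4 := h (Fin.cons 1 ν)
        rw [Fin.prod_univ_succ] at h4
        have h5 : (1 : ZMod 2).val = 1 := rfl
        simp only [Fin.cons_zero, Fin.cons_succ, h5, pow_one] at h4
        have e : δ * (β 0 * ∏ i : Fin r, β i.succ ^ (ν i).val) =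
            δ * (∏ i : Fin r, β i.succ ^ (ν i).val) * β 0 := by ring
        rw [e] at h4
        exact h4

end Pool.Agent.H691.MI
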