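import Pool.Agent.Run7.h691.MI.Tow

/-!
# Towers of quadratic extensions generated by the roots of elements congruent to `1` modulo `4` are
# unramified above `2`
-/

set_option autoImplicit false
set_option linter.unusedVariables false
set_option linter.unusedSectionVars false

open scoped Classical

namespace Pool.Agent.H691.MI

open Finset NumberField IsDedekindDomain Polynomial IntermediateField

section
variable {K : Type} [Field K] [NumberField K] {N : Type} [Field N] [NumberField N] [Algebra K N]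

/-- `(1 + √b) / 2` is integral -/
theorem ex_half {b c : 𝓞 K} {g : 𝓞 N} (hg : g ^ 2 = algebraMap (𝓞 K) (𝓞 N) b) (hb : b = 1 + 4 * c) :
    ∃ η : 𝓞 N, 2 * η = 1 + g := by
  obtain ⟨y, hy⟩ : ∃ y : N, y = (1 + (g : N)) / 2 := ⟨_, rfl⟩
  have h1 : y ^ 2 - y - algebraMap (𝓞 K) N c = 0 := by
    have h2 : (g : N) ^ 2 = algebraMap (𝓞 K) N b := congrArg (fun x : 𝓞 N => (x : N)) hg
    rw [hb, map_add, map_mul, map_one, map_ofNat] at h2
    rw [hy]
    field_simp
    linear_combination h2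
  have h2 : IsIntegral (𝓞 K) y := by
    refine ⟨X ^ 2 - X - C c, ?_, ?_⟩
    · have : (X ^ 2 - X - C c : (𝓞 K)[X]) = X ^ 2 - (X + C c) := by ring
      rw [this]
      refine Polynomial.monic_X_pow_sub ?_
      rw [degree_X_add_C c]
      norm_num
    · simp only [eval₂_sub, eval₂_pow, eval₂_X, eval₂_C]
      exact h1
  have h3 : IsIntegral ℤ y := isIntegral_trans (R := ℤ) (A := 𝓞 K) y h2
  refine ⟨⟨y, h3⟩, ?_⟩
  apply RingOfIntegers.ext
  show 2 * y = 1 + (g : N)
  rw [hy]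
  field_simp

/-- the quadratic extension is unramified above `2` -/
theorem un_step (h2f : Module.finrank K N = 2) {b c : 𝓞 K} {g : 𝓞 N}
    (hg : g ^ 2 = algebraMap (𝓞 K) (𝓞 N) b) (hb : b = 1 + 4 * c) (τ : 𝓞 N ≃ₐ[𝓞 K] 𝓞 N)
    (hτ : τ g = -g) {v : HeightOneSpectrum (𝓞 K)} (h2 : (2 : 𝓞 K) ∈ v.asIdeal) (w : Fib N v) :
    ram w = 1 := by
  have hrp := ram_pos w
  have hfp := fdeg_pos w
  by_contra hne
  have h3 : 2 ≤ ram w * fdeg w := by nlinarith [hrp, hfp, (by omega : 2 ≤ ram w)]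
  obtain ⟨h4, h5⟩ := one_fib h2f w h3
  have hf : fdeg w = 1 := by
    have hr2 : 2 ≤ ram w := by omega
    by_contra hf
    have hf2 : 2 ≤ fdeg w := by omega
    have := Nat.mul_le_mul hr2 hf2
    omega
  obtain ⟨η, hη⟩ := ex_half hg hb
  obtain ⟨x, hx⟩ := surj_one w hf η
  have h6 : τ (η - algebraMap (𝓞 K) (𝓞 N) x) ∈ w.1.asIdeal := by
    rw [← mem_mv τ w, h4 (mv τ w)]
    exact hx
  rw [map_sub, τ.commutes] at h6
  have h7 : g ∈ w.1.asIdeal := by
    have h8 : 2 * (η - τ η) = 2 * g := by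
      have h9 := congrArg τ hη
      rw [map_mul, map_add, map_one, hτ, map_ofNat] at h9
      linear_combination hη - h9
    have h10 : η - τ η = g := mul_left_cancel₀ two_ne_zero h8
    rw [← h10]
    have := sub_mem hx h6
    rwa [sub_sub_sub_cancel_right] at this
  have h2N : (2 : 𝓞 N) ∈ w.1.asIdeal := by
    have := (mem_fib w 2).2 h2
    rwa [map_ofNat] at this
  apply w.1.isPrime.ne_top
  rw [Ideal.eq_top_iff_one]
  have h11 : (1 : 𝓞 N) = g ^ 2 - 2 * (2 * algebraMap (𝓞 K) (𝓞 N) c) := by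
    rw [hg, hb, map_add, map_mul, map_one, map_ofNat]
    ring
  rw [h11]
  exact sub_mem (Ideal.pow_mem_of_mem _ h7 2 (by norm_num)) (Ideal.mul_mem_right _ _ h2N)

end

/-- the uniformizers above `2` of `K` are uniformizers of `F` -/
theorem od_tower (r : ℕ) : ∀ (K F : Type) [Field K] [NumberField K] [Field F] [NumberField F]
    [Algebra K F] (β : Fin r → 𝓞 K) (hβ : ∀ i, β i ≠ 0) (hβ4 : ∀ i, ∃ c : 𝓞 K, β i = 1 + 4 * c)
    (hind : ∀ ν : Fin r → ZMod 2, ν ≠ 0 → ∀ y : K, y ^ 2 ≠ ∏ i, (β i : K) ^ (ν i).val)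
    (θ : Fin r → 𝓞 F) (hθ : ∀ i, θ i ^ 2 = algebraMap (𝓞 K) (𝓞 F) (β i))
    (hgen : ∀ S : Subfield F, (∀ k : K, algebraMap K F k ∈ S) → (∀ i, (θ i : F) ∈ S) → S = ⊤)
    (l : 𝓞 K) (hl0 : l ≠ 0)
    (hl : ∀ v : HeightOneSpectrum (𝓞 K), (2 : 𝓞 K) ∈ v.asIdeal → od v l = 1)
    (w : HeightOneSpectrum (𝓞 F)) (hw : (2 : 𝓞 F) ∈ w.asIdeal),
    od w (algebraMap (𝓞 K) (𝓞 F) l) = 1 := by
  induction r with
  | zero =>
    intro K F _ _ _ _ _ β hβ hβ4 hind θ hθ hgen l hl0 hl w hw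
    have h1 : Module.finrank K F = 1 := by
      have h2 := hgen (algebraMap K F).fieldRange (fun k => ⟨k, rfl⟩) (fun i => i.elim0)
      have h3 : Function.Surjective (algebraMap K F) := fun y => by
        have : y ∈ (algebraMap K F).fieldRange := by rw [h2]; trivial
        exact this
      exact finrank_eq_one_iff_of_nonzero' (1 : F) one_ne_zero |>.2 fun w => by
        obtain ⟨c, hc⟩ := h3 w
        exact ⟨c, by rw [Algebra.smul_def, mul_one, hc]⟩
    obtain ⟨v, hv⟩ : ∃ v : HeightOneSpectrum (𝓞 K), v = und w := ⟨_, rfl⟩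
    obtain ⟨w', hw'⟩ : ∃ w' : Fib F v, w'.1 = w := ⟨⟨w, hv.symm⟩, rfl⟩
    have h2v : (2 : 𝓞 K) ∈ v.asIdeal := by
      rw [← mem_fib w', map_ofNat, hw']
      exact hw
    have h2 := sum_fib (N := F) v
    rw [h1] at h2
    have h3 : ram w' * fdeg w' ≤ 1 := by
      rw [← h2]
      exact Finset.single_le_sum (f := fun x : Fib F v => ram x * fdeg x)
        (fun _ _ => Nat.zero_le _) (mem_univ w')
    have h4 : ram w' = 1 := by
      have h5 := ram_pos w'
      have h6 := fdeg_pos w'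
      have h7 : ram w' ≤ ram w' * fdeg w' := Nat.le_mul_of_pos_right _ h6
      omega
    rw [← hw', od_fib w' hl0, h4, one_mul]
    exact hl v h2v
  | succ r ih =>
    intro K F _ _ _ _ _ β hβ hβ4 hind θ hθ hgen l hl0 hl w hw
    have hb0 : ∀ y : K, y ^ 2 ≠ (β 0 : K) := by
      intro y hy
      refine hind (Pi.single 0 1) (fun h => ?_) y ?_
      · have := congrFun h 0
        rw [Pi.single_eq_same] at this
        exact one_ne_zero this
      · rw [Fin.prod_univ_succ, Pi.single_eq_same, ZMod.val_one, pow_one, Finset.prod_eq_one, mul_one,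
          hy]
        intro i _
        rw [Pi.single_eq_of_ne (Fin.succ_ne_zero i), ZMod.val_zero, pow_zero]
    have hθK : ∀ i, (θ i : F) ^ 2 = algebraMap K F (β i) := by
      intro i
      have := congrArg (fun x : 𝓞 F => (x : F)) (hθ i)
      exact this
    have hbK0 : (β 0 : K) ≠ 0 := fun h => hβ 0 (RingOfIntegers.ext h)
    obtain ⟨N, hfd, h3f, gN, hgF, hg3, hpb, τ, hτ⟩ := ex_step' (F := F) hb0 (hθK 0)
    have hNF : NumberField N := NumberField.of_module_finite K N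
    have hgint : IsIntegral ℤ gN := by
      refine IsIntegral.of_pow (n := 2) (by norm_num) ?_
      rw [hg3]
      exact ((β 0).isIntegral_coe).map (algebraMap K N).toIntAlgHom
    obtain ⟨g, hgc⟩ : ∃ g : 𝓞 N, (g : N) = gN := ⟨⟨gN, hgint⟩, rfl⟩
    have hg3' : g ^ 2 = algebraMap (𝓞 K) (𝓞 N) (β 0) := by
      apply RingOfIntegers.ext
      rw [coe_pw, hgc]
      exact hg3
    have hτ' : RingOfIntegers.mapAlgEquiv τ g = -g := by
      apply RingOfIntegers.ext
      show τ (g : N) = -(g : N)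
      rw [hgc]
      exact hτ
    have halg : ∀ x : 𝓞 K, algebraMap (𝓞 N) (𝓞 F) (algebraMap (𝓞 K) (𝓞 N) x) =
        algebraMap (𝓞 K) (𝓞 F) x := fun x => (IsScalarTower.algebraMap_apply _ _ _ _).symm
    have hβN : ∀ i : Fin r, algebraMap (𝓞 K) (𝓞 N) (β i.succ) ≠ 0 := fun i => alg_ne (hβ i.succ)
    have hβN4 : ∀ i : Fin r, ∃ c : 𝓞 N, algebraMap (𝓞 K) (𝓞 N) (β i.succ) = 1 + 4 * c := by
      intro i
      obtain ⟨c, hc⟩ := hβ4 i.succ
      refine ⟨algebraMap (𝓞 K) (𝓞 N) c, ?_⟩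
      rw [hc, map_add, map_mul, map_one, map_ofNat]
    have hindN : ∀ ν : Fin r → ZMod 2, ν ≠ 0 → ∀ y : N,
        y ^ 2 ≠ ∏ i, ((algebraMap (𝓞 K) (𝓞 N) (β i.succ) : 𝓞 N) : N) ^ (ν i).val := by
      intro ν hν y hy
      have h1 : algebraMap K N (∏ i : Fin r, (β i.succ : K) ^ (ν i).val) = y ^ 2 := by
        rw [hy, map_prod]
        refine Finset.prod_congr rfl fun i _ => ?_
        rw [map_pow]
        rfl
      obtain ⟨m, z, hz⟩ := kum hbK0 hg3 hpb τ hτ (x := ∏ i : Fin r, (β i.succ : K) ^ (ν i).val)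
        h1.symm
      refine hind (Fin.cons m ν) (fun h => hν ?_) z ?_
      · funext i
        exact congrFun h i.succ
      · rw [hz, Fin.prod_univ_succ]
        rfl
    have hgenN : ∀ S : Subfield F, (∀ k : N, algebraMap N F k ∈ S) →
        (∀ i : Fin r, (θ i.succ : F) ∈ S) → S = ⊤ := by
      intro S hS hS'
      refine hgen S (fun k => ?_) (fun i => ?_)
      · rw [IsScalarTower.algebraMap_apply K N F]
        exact hS _
      · refine Fin.cases ?_ (fun j => hS' j) i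
        rw [← hgF]
        exact hS _
    rw [← halg]
    refine ih N F (fun i => algebraMap (𝓞 K) (𝓞 N) (β i.succ)) hβN hβN4 hindN
      (fun i => θ i.succ) (fun i => by rw [hθ i.succ, halg]) hgenN (algebraMap (𝓞 K) (𝓞 N) l)
      (alg_ne hl0) (fun u hu => ?_) w hw
    obtain ⟨c, hc⟩ := hβ4 0
    obtain ⟨v, hv⟩ : ∃ v : HeightOneSpectrum (𝓞 K), v = und u := ⟨_, rfl⟩
    obtain ⟨w', hw'⟩ : ∃ w' : Fib N v, w'.1 = u := ⟨⟨u, hv.symm⟩, rfl⟩
    have h2v : (2 : 𝓞 K) ∈ v.asIdeal := by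
      rw [← mem_fib w', map_ofNat, hw']
      exact hu
    rw [← hw', od_fib w' hl0, un_step h3f hg3' hc (RingOfIntegers.mapAlgEquiv τ) hτ' h2v w', one_mul]
    exact hl v h2v

end Pool.Agent.H691.MI
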