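import Pool.Agent.Run7.h691.MI.Mod
import Pool.Agent.Run7.h691.MI.Tors
import Pool.Agent.Run7.h691.MI.Un
import Pool.Agent.Y699.Mn

/-!
# The `L`-functions over `ℚ(i)` and over the multiquadratic extensions
-/

set_option autoImplicit false
set_option linter.unusedVariables false
set_option linter.unusedSectionVars false

open scoped Classical

namespace Pool.Agent.H691.MI

open Finset NumberField IsDedekindDomain WeierstrassCurve
open H385 (ZI RQ im1 nrm)
open Pool.Agent.W189.NF (aV eV)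
open Pool.Agent.H921R2.TatePole (nm two_le_nm)
open Pool.Agent.Y699 (pi1 PP PS PD Good crv crv_min pg pg_span pg_cases pg_prime cnt cnt_bad mem_iff
  mem_pow_iff z_prime pi1_two fam fam_PF LE LE_diff LE_one LE_hasProd LH_ne good_nonempty wt_sum
  ker_of_good aff_crv not_dvd_two pi1_prim)
open Pool.Agent.W164.RC (two2 prim_iff_dvd Ip Ip_spec)
open Pool.Agent.H304R2.EC.A1 (prim)

section
variable {K : Type} [Field K] [NumberField K]

/-- equal local factors -/
theorem lf_sq {v : HeightOneSpectrum (𝓞 K)} {δ δ' m : 𝓞 K} (hδ : δ ≠ 0) (hδ' : δ' ≠ 0)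
    (h : δ * δ' = m ^ 2) (x : ℂ) : lf δ v x = lf δ' v x := by
  have hm : m ≠ 0 := by
    rintro rfl
    rw [zero_pow two_ne_zero] at h
    exact mul_ne_zero hδ hδ' h
  by_cases h2 : (2 : 𝓞 K) ∈ v.asIdeal
  · rw [lf_two h2, lf_two h2]
  · have hod : od v δ + od v δ' = 2 * od v m := by
      have := congrArg (od v) h
      rwa [od_mul v hδ hδ', od_pow v hm] at this
    by_cases hp : 2 ∣ od v δ
    · obtain ⟨r, z, z', hz, hr, e⟩ := (good_iff hδ v).2 hp
      have e' : δ' * (z * m) ^ 2 = r * (δ' * z') ^ 2 := by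
        linear_combination δ' ^ 2 * e - (δ' * z ^ 2) * h
      rw [lf_val h2 hδ hr hz e, lf_val h2 hδ' hr (mul_ne_zero hz hm) e']
    · rw [lf_bad hδ hp, lf_bad hδ' (by omega)]

variable (e : ZI ≃+* 𝓞 K)

theorem mem_two {v : HeightOneSpectrum (𝓞 K)} : (2 : 𝓞 K) ∈ v.asIdeal ↔ pg e v = pi1 := by
  have h1 : (2 : 𝓞 K) = e 2 := by rw [map_ofNat]
  rw [h1, mem_iff e (pg_span e v)]
  constructor
  · intro h
    rcases pg_cases e v with ⟨h2, h3⟩ | ⟨h2, h3⟩
    · exact h3
    · exfalso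
      have h4 := Ip_spec (Pool.Agent.H921R2.TatePole.below v).2 h3
      exact not_dvd_two ⟨h4.2.1, h4.1⟩ h
  · intro h
    rw [h]
    exact pi1_two

/-- the two forms of the local factor -/
theorem lf_conv {D : ZI} (hD : PS D) (v : HeightOneSpectrum (𝓞 K)) (s : ℂ) :
    Pool.Agent.Y699.lf (crv (e D)) v s = lf (e D) v ((nm v : ℂ) ^ (-s)) := by
  have hD0 : e D ≠ 0 := (map_ne_zero_iff _ e.injective).2 hD.ne
  have hsp := pg_span e v
  have hzp : Prime (pg e v) := pg_prime e v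
  have hnm : Ideal.absNorm v.asIdeal = nm v := rfl
  have hcnt : Pool.Agent.Y699.Mdl.aff ((crv (e D)).map (Ideal.Quotient.mk v.asIdeal)) = Nv v (e D) :=
    aff_crv v (e D)
  have hΔ : (crv (e D)).Δ ∈ v.asIdeal ↔ ((2 : 𝓞 K) ∈ v.asIdeal ∨ e D ∈ v.asIdeal) := by
    rw [Pool.Agent.Y699.crv_Δ]
    have e1 : (64 : 𝓞 K) = 2 ^ 6 := by norm_num
    rw [e1]
    constructor
    · intro h
      rcases v.isPrime.mem_or_mem h with h | h
      · exact Or.inl (v.isPrime.mem_of_pow_mem _ h)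
      · exact Or.inr (v.isPrime.mem_of_pow_mem _ h)
    · rintro (h | h)
      · exact Ideal.mul_mem_right _ _ (Ideal.pow_mem_of_mem _ h 6 (by norm_num))
      · exact Ideal.mul_mem_left _ _ (Ideal.pow_mem_of_mem _ h 6 (by norm_num))
  have h6 : (nm v : ℂ) ^ (-2 * s) = ((nm v : ℂ) ^ (-s)) ^ 2 := by
    rw [← Complex.cpow_nat_mul]
    congr 1
    push_cast
    ring
  unfold Pool.Agent.Y699.lf
  rw [hcnt, hnm, h6]
  by_cases hb : (2 : 𝓞 K) ∈ v.asIdeal ∨ e D ∈ v.asIdeal
  · rw [if_pos (hΔ.2 hb)]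
    have hb' : (((Pool.Agent.H921R2.TatePole.below v : ℕ) = 2 ∧ pg e v = pi1) ∨ pg e v ∣ D) := by
      rcases hb with h | h
      · rcases pg_cases e v with ⟨h1, h2⟩ | ⟨h1, h2⟩
        · exact Or.inl ⟨h1, h2⟩
        · exfalso
          have h3 := (mem_two e).1 h
          have h4 := Ip_spec (Pool.Agent.H921R2.TatePole.below v).2 h2
          have h5 := pi1_prim h4.1
          rw [h3] at h5
          exact h5 dvd_rfl
      · exact Or.inr ((mem_iff e hsp D).1 h)
    have h1 := cnt_bad e hsp hD.prm hb'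
    have h2 : (nm v : ℂ) - (Nv v (e D) : ℂ) = 0 := by
      exact_mod_cast congrArg (Int.cast : ℤ → ℂ) h1
    have h3 : lf (e D) v ((nm v : ℂ) ^ (-s)) = 1 := by
      by_cases h4 : (2 : 𝓞 K) ∈ v.asIdeal
      · exact lf_two h4 _ _
      · have h5 := (mem_iff e hsp D).1 (hb.resolve_left h4)
        apply lf_bad hD0
        have k1 : 1 ≤ od v (e D) := by
          rw [od_le v hD0, pow_one]
          exact hb.resolve_left h4
        have k2 : ¬ 2 ≤ od v (e D) := by
          rw [od_le v hD0, mem_pow_iff e hsp]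
          intro h
          rw [sq] at h
          exact hzp.not_isUnit (hD.sqf _ h)
        omega
    rw [h3, h2]
    simp
  · rw [if_neg (fun h => hb (hΔ.1 h))]
    push Not at hb
    rw [lf_val hb.1 hD0 hb.2 one_ne_zero (z' := 1) rfl]
    push_cast
    rfl

/-- **the `L`-function over `ℚ(i)`** -/
theorem ex_L {D : ZI} (hD : PS D) : ∃ L : ℂ → ℂ, Differentiable ℂ L ∧ (Good D → L 1 ≠ 0) ∧
    ∀ s : ℂ, 3 / 2 < s.re → HasProd (fun v : HeightOneSpectrum (𝓞 K) =>
      lf (e D) v ((nm v : ℂ) ^ (-s))) (L s) := by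
  have hp := fam_PF hD.ne
  refine ⟨LE hp Finset.univ, LE_diff hp _, fun h => LE_one hp _ (LH_ne hp (good_nonempty h)
    (wt_sum h.ps h.five) (ker_of_good h)), fun s hs => ?_⟩
  have h1 := LE_hasProd hp Finset.univ e hs (fun _ => crv (e D)) (fun v => by
    rw [hD.DD]
    exact crv_min e hD v)
  refine h1.congr_fun fun v => ?_
  exact (lf_conv e hD v s).symm

/-- the uniformizer above `2` -/
theorem od_pi1 {v : HeightOneSpectrum (𝓞 K)} (h2 : (2 : 𝓞 K) ∈ v.asIdeal) : od v (e pi1) = 1 := by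
  have h1 := (mem_two e).1 h2
  have hsp := pg_span e v
  rw [h1] at hsp
  have hp : Prime pi1 := by
    have := pg_prime e v
    rwa [h1] at this
  have h0 : e pi1 ≠ 0 := (map_ne_zero_iff _ e.injective).2 hp.ne_zero
  have k1 : 1 ≤ od v (e pi1) := by
    rw [od_le v h0, mem_pow_iff e hsp, pow_one]
  have k2 : ¬ 2 ≤ od v (e pi1) := by
    rw [od_le v h0, mem_pow_iff e hsp]
    rintro ⟨c, hc⟩
    apply hp.not_isUnit
    have h3 : pi1 * 1 = pi1 * (pi1 * c) := by rw [mul_one]; linear_combination hc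
    exact IsUnit.of_mul_eq_one c (mul_left_cancel₀ hp.ne_zero h3).symm
  omega

/-- points -/
theorem t2_of_good {D : ZI} (h : Good D) : T2 ((e D : 𝓞 K) : K) :=
  fun x y hxy => Pool.Agent.Y699.crit_pts h e hxy

/-- points and squares -/
theorem t2_sq {K : Type} [Field K] {δ δ' m : K} (hδ : δ ≠ 0) (hδ' : δ' ≠ 0) (h : δ * δ' = m ^ 2)
    (h' : T2 δ') : T2 δ := by
  intro x y hxy
  have hm : m ≠ 0 := by
    rintro rfl
    rw [zero_pow two_ne_zero] at h
    exact mul_ne_zero hδ hδ' h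
  -- multiply by the square class: `u = m / δ`, `δ' = u² δ`
  have h1 := h' ((m / δ) ^ 2 * x) ((m / δ) ^ 3 * y) (by
    have e1 : δ' = (m / δ) ^ 2 * δ := by
      field_simp
      linear_combination h
    rw [e1]
    linear_combination ((m / δ) ^ 6) * hxy)
  rcases mul_eq_zero.1 h1 with h2 | h2
  · exact absurd h2 (pow_ne_zero 3 (div_ne_zero hm hδ))
  · exact h2

end

end Pool.Agent.H691.MI
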