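import Mathlib
import Pool.Agent.W189.NF.LSer

/-!
# Places of an extension of number fields

Copies of general lemmas of `Pool/Agent/R433/MD/Fiber`, `Pool/Agent/R433/MD/Relation` (helper433) and
`Pool/Agent/Run7/h707/TE/{Ord,Efg,Step}` (helper707), kept apart from their imports.
-/

set_option autoImplicit false
set_option linter.unusedVariables false
set_option linter.unusedSectionVars false
set_option linter.style.haveILetI false
set_option linter.deprecated false

open scoped Classical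

namespace Pool.Agent.H691.MI

open Finset NumberField IsDedekindDomain
open Pool.Agent.H921R2.TatePole (nm two_le_nm)

section dedekind
variable {R : Type} [CommRing R] [IsDedekindDomain R] (w : HeightOneSpectrum R)

/-- the order of `x` at `w` -/
noncomputable def od (x : R) : ℕ := multiplicity w.asIdeal (Ideal.span {x})

theorem span_ne {x : R} (hx : x ≠ 0) : Ideal.span {x} ≠ (0 : Ideal R) := by
  rw [Ideal.zero_eq_bot, Ne, Ideal.span_singleton_eq_bot]
  exact hx

theorem fin_od {x : R} (hx : x ≠ 0) : FiniteMultiplicity w.asIdeal (Ideal.span {x}) :=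
  FiniteMultiplicity.of_not_isUnit w.prime.not_isUnit (span_ne hx)

theorem od_mul {x y : R} (hx : x ≠ 0) (hy : y ≠ 0) : od w (x * y) = od w x + od w y := by
  unfold od
  rw [← multiplicity_mul w.prime, Ideal.span_singleton_mul_span_singleton]
  rw [Ideal.span_singleton_mul_span_singleton]
  exact fin_od w (mul_ne_zero hx hy)

theorem od_one : od w 1 = 0 := by
  unfold od
  rw [Ideal.span_singleton_one, ← Ideal.one_eq_top]
  exact multiplicity_eq_zero.2 fun h => w.prime.not_isUnit (isUnit_of_dvd_one h)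

theorem od_pow {x : R} (hx : x ≠ 0) (n : ℕ) : od w (x ^ n) = n * od w x := by
  induction n with
  | zero => rw [pow_zero, od_one, zero_mul]
  | succ n ih => rw [pow_succ, od_mul w (pow_ne_zero n hx) hx, ih, Nat.succ_mul]

theorem od_le {x : R} (hx : x ≠ 0) {n : ℕ} : n ≤ od w x ↔ x ∈ w.asIdeal ^ n := by
  unfold od
  rw [← (fin_od w hx).pow_dvd_iff_le_multiplicity, Ideal.dvd_span_singleton]

theorem od_zero {x : R} (hx : x ≠ 0) : od w x = 0 ↔ x ∉ w.asIdeal := by
  constructor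
  · intro h h'
    have := (od_le w hx (n := 1)).2 (by rwa [pow_one])
    omega
  · intro h
    by_contra h'
    exact h (by have := (od_le w hx (n := 1)).1 (by omega); rwa [pow_one] at this)

theorem od_of_notMem {x : R} (hx : x ∉ w.asIdeal) : od w x = 0 := by
  rw [od_zero w]
  · exact hx
  · rintro rfl
    exact hx (zero_mem _)

/-- an element of order one -/
theorem ex_unif : ∃ π : R, π ≠ 0 ∧ od w π = 1 := by
  obtain ⟨π, h1, h2⟩ : ∃ π ∈ w.asIdeal, π ∉ w.asIdeal ^ 2 := by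
    by_contra h
    push Not at h
    have h3 : w.asIdeal ^ 2 = w.asIdeal ^ 1 := by
      rw [pow_one]
      exact le_antisymm (Ideal.pow_le_self (by norm_num)) fun x hx => h x hx
    rw [pow_two, pow_one] at h3
    have h4 : w.asIdeal * w.asIdeal = w.asIdeal * 1 := by rw [h3, mul_one]
    have h5 := mul_left_cancel₀ w.prime.ne_zero h4
    exact w.prime.not_isUnit (h5 ▸ isUnit_one)
  have h0 : π ≠ 0 := by
    rintro rfl
    exact h2 (zero_mem _)
  refine ⟨π, h0, ?_⟩
  have h3 := (od_le w h0 (n := 1)).2 (by rwa [pow_one])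
  have h4 : ¬ 2 ≤ od w π := fun h => h2 ((od_le w h0).1 h)
  omega

/-- divisibility up to an element prime to `w` -/
theorem ex_div {x y : R} (hx : x ≠ 0) (hy : y ≠ 0) (h : od w x ≤ od w y) :
    ∃ s t : R, s ∉ w.asIdeal ∧ s * y = x * t ∧ od w y = od w x + od w t := by
  obtain ⟨A, hA⟩ := pow_multiplicity_dvd w.asIdeal (Ideal.span {x})
  have hAw : ¬ A ≤ w.asIdeal := by
    intro hle
    obtain ⟨B, hB⟩ := Ideal.dvd_iff_le.2 hle
    have h1 : w.asIdeal ^ (od w x + 1) ∣ Ideal.span {x} := by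
      rw [hA, hB, pow_succ]
      show w.asIdeal ^ od w x * w.asIdeal ∣ w.asIdeal ^ od w x * (w.asIdeal * B)
      rw [← mul_assoc]
      exact Dvd.intro B rfl
    have h2 := ((fin_od w hx).pow_dvd_iff_le_multiplicity).1 h1
    unfold od at h2
    omega
  obtain ⟨s, hsA, hs⟩ := SetLike.not_le_iff_exists.1 hAw
  have h1 : s * y ∈ Ideal.span {x} := by
    rw [hA, mul_comm s y]
    exact Ideal.mul_mem_mul ((od_le w hy).1 h) hsA
  obtain ⟨t, ht⟩ := Ideal.mem_span_singleton.1 h1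
  have hs0 : s ≠ 0 := by
    rintro rfl
    exact hs (zero_mem _)
  have ht0 : t ≠ 0 := by
    rintro rfl
    rw [mul_zero] at ht
    exact mul_ne_zero hs0 hy ht
  refine ⟨s, t, hs, ht, ?_⟩
  have h2 := congrArg (od w) ht
  rw [od_mul w hs0 hy, od_mul w hx ht0, od_of_notMem w hs, zero_add] at h2
  exact h2

end dedekind


section fib
variable {K : Type} [Field K] [NumberField K]

/-- the prime of `K` below `w` -/
noncomputable def und {F : Type} [Field F] [NumberField F] [Algebra K F]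
    (w : HeightOneSpectrum (𝓞 F)) : HeightOneSpectrum (𝓞 K) where
  asIdeal := w.asIdeal.comap (algebraMap (𝓞 K) (𝓞 F))
  isPrime := w.isPrime.comap _
  ne_bot := by
    obtain ⟨y, hy, hy0⟩ := Submodule.exists_mem_ne_zero_of_ne_bot w.ne_bot
    exact Ideal.comap_ne_bot_of_integral_mem hy0 hy (Algebra.IsIntegral.isIntegral y)

/-- the primes above `v` -/
abbrev Fib (F : Type) [Field F] [NumberField F] [Algebra K F] (v : HeightOneSpectrum (𝓞 K)) :
    Type := {w : HeightOneSpectrum (𝓞 F) // und w = v}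

variable {F : Type} [Field F] [NumberField F] [Algebra K F]

theorem map_ne_bot (v : HeightOneSpectrum (𝓞 K)) :
    v.asIdeal.map (algebraMap (𝓞 K) (𝓞 F)) ≠ ⊥ := by
  intro h
  exact v.ne_bot ((Ideal.map_eq_bot_iff_of_injective
    (RingOfIntegers.algebraMap.injective K F)).1 h)

theorem fib_le {v : HeightOneSpectrum (𝓞 K)} (w : Fib F v) :
    v.asIdeal = w.1.asIdeal.comap (algebraMap (𝓞 K) (𝓞 F)) := by
  rw [← congrArg HeightOneSpectrum.asIdeal w.2]
  rfl

instance finite_fib (v : HeightOneSpectrum (𝓞 K)) : Finite (Fib F v) := by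
  have h1 := Ideal.finite_factors (map_ne_bot (F := F) v)
  have h2 : {w : HeightOneSpectrum (𝓞 F) | und w = v} ⊆
      {w : HeightOneSpectrum (𝓞 F) | w.asIdeal ∣ v.asIdeal.map (algebraMap (𝓞 K) (𝓞 F))} := by
    intro w hw
    rw [Set.mem_ofPred_eq, Ideal.dvd_iff_le, Ideal.map_le_iff_le_comap]
    exact (fib_le ⟨w, hw⟩).le
  exact (h1.subset h2).to_subtype

noncomputable instance fintype_fib (v : HeightOneSpectrum (𝓞 K)) : Fintype (Fib F v) :=
  Fintype.ofFinite _

noncomputable instance field_v (v : HeightOneSpectrum (𝓞 K)) : Field (𝓞 K ⧸ v.asIdeal) :=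
  haveI := v.isMaximal
  Ideal.Quotient.field _

instance fin_v (v : HeightOneSpectrum (𝓞 K)) : Finite (𝓞 K ⧸ v.asIdeal) :=
  Ideal.finiteQuotientOfFreeOfNeBot v.asIdeal v.ne_bot

noncomputable instance algFib {v : HeightOneSpectrum (𝓞 K)} (w : Fib F v) :
    Algebra (𝓞 K ⧸ v.asIdeal) (𝓞 F ⧸ w.1.asIdeal) :=
  (Ideal.quotientMap w.1.asIdeal (algebraMap (𝓞 K) (𝓞 F)) (fib_le w).le).toAlgebra

theorem algFib_mk {v : HeightOneSpectrum (𝓞 K)} (w : Fib F v) (x : 𝓞 K) :
    algebraMap (𝓞 K ⧸ v.asIdeal) (𝓞 F ⧸ w.1.asIdeal) (Ideal.Quotient.mk v.asIdeal x) =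
      Ideal.Quotient.mk w.1.asIdeal (algebraMap (𝓞 K) (𝓞 F) x) := rfl

/-- the residue degree -/
noncomputable def fdeg {v : HeightOneSpectrum (𝓞 K)} (w : Fib F v) : ℕ :=
  Module.finrank (𝓞 K ⧸ v.asIdeal) (𝓞 F ⧸ w.1.asIdeal)

theorem fdeg_pos {v : HeightOneSpectrum (𝓞 K)} (w : Fib F v) : 0 < fdeg w := by
  have : Module.Finite (𝓞 K ⧸ v.asIdeal) (𝓞 F ⧸ w.1.asIdeal) := Module.Finite.of_finite
  exact Module.finrank_pos

theorem nm_fib {v : HeightOneSpectrum (𝓞 K)} (w : Fib F v) : nm w.1 = nm v ^ fdeg w := by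
  have h1 : Nat.card (𝓞 F ⧸ w.1.asIdeal) = Nat.card (𝓞 K ⧸ v.asIdeal) ^ fdeg w :=
    Module.natCard_eq_pow_finrank
  exact h1

end fib

section
variable {K : Type} [Field K] [NumberField K] {N : Type} [Field N] [NumberField N] [Algebra K N]

/-- the ramification index -/
noncomputable def ram {v : HeightOneSpectrum (𝓞 K)} (w : Fib N v) : ℕ :=
  v.asIdeal.ramificationIdx' w.1.asIdeal

theorem lies {v : HeightOneSpectrum (𝓞 K)} (w : Fib N v) : w.1.asIdeal.LiesOver v.asIdeal :=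
  ⟨fib_le w⟩

theorem alg_ne {x : 𝓞 K} (hx : x ≠ 0) : algebraMap (𝓞 K) (𝓞 N) x ≠ 0 :=
  (map_ne_zero_iff _ (RingOfIntegers.algebraMap.injective K N)).2 hx

theorem mem_fib {v : HeightOneSpectrum (𝓞 K)} (w : Fib N v) (x : 𝓞 K) :
    algebraMap (𝓞 K) (𝓞 N) x ∈ w.1.asIdeal ↔ x ∈ v.asIdeal := by
  conv_rhs => rw [fib_le w]
  rfl

theorem od_fib {v : HeightOneSpectrum (𝓞 K)} (w : Fib N v) {x : 𝓞 K} (hx : x ≠ 0) :
    od w.1 (algebraMap (𝓞 K) (𝓞 N) x) = ram w * od v x := by
  have hl := lies w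
  have h1 := Ideal.IsDedekindDomain.emultiplicity_map_eq_ramificationIdx'_mul (S := 𝓞 N)
    (v := v.asIdeal) (w := w.1.asIdeal) (I := Ideal.span {x}) (span_ne hx)
    v.prime.irreducible w.1.prime.irreducible w.1.ne_bot
  rw [Ideal.map_span, Set.image_singleton, (fin_od w.1 (alg_ne hx)).emultiplicity_eq_multiplicity,
    (fin_od v hx).emultiplicity_eq_multiplicity] at h1
  unfold od ram
  exact_mod_cast h1

theorem card_pow {k E : Type} [Field k] [Ring E] [Finite E] (A : Algebra k E) :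
    Nat.card E = Nat.card k ^ (@Module.finrank k E _ _ A.toModule) := by
  letI := A
  have : Module.Finite k E := Module.Finite.of_finite
  exact Module.natCard_eq_pow_finrank

theorem card_nm'' {K : Type} [Field K] [NumberField K] (v : HeightOneSpectrum (𝓞 K)) :
    Nat.card (𝓞 K ⧸ v.asIdeal) = nm v := rfl

/-- **the sum of `e f`** -/
theorem sum_fib (v : HeightOneSpectrum (𝓞 K)) :
    ∑ w : Fib N v, ram w * fdeg w = Module.finrank K N := by
  have hm : v.asIdeal.IsMaximal := v.isMaximal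
  have h1 := Ideal.sum_ramification_inertia (𝓞 N) K N (p := v.asIdeal) v.ne_bot
  rw [← h1]
  refine Finset.sum_bij (fun w _ => w.1.asIdeal) ?_ ?_ ?_ ?_
  · intro w _
    rw [IsDedekindDomain.mem_primesOverFinset_iff v.ne_bot]
    exact ⟨w.1.isPrime, lies w⟩
  · intro w _ w' _ h
    exact Subtype.ext (HeightOneSpectrum.ext h)
  · intro P hP
    rw [IsDedekindDomain.mem_primesOverFinset_iff v.ne_bot] at hP
    obtain ⟨hP1, hP2⟩ := hP
    have hne : P ≠ ⊥ := by
      rintro rfl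
      have := hP2.over
      apply v.ne_bot
      rw [this, Ideal.under_def]
      exact Ideal.comap_bot_of_injective _ (RingOfIntegers.algebraMap.injective K N)
    refine ⟨⟨⟨P, hP1, hne⟩, HeightOneSpectrum.ext ?_⟩, mem_univ _, rfl⟩
    exact hP2.over.symm
  · intro w _
    have hl := lies w
    rw [Ideal.inertiaDeg'_algebraMap]
    unfold ram
    refine congrArg _ (Nat.pow_right_injective (two_le_nm v) ?_)
    show nm v ^ fdeg w = nm v ^ _
    rw [← nm_fib w, ← card_nm'' v, ← card_nm'' w.1]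
    exact card_pow _

theorem ram_pos {v : HeightOneSpectrum (𝓞 K)} (w : Fib N v) : 0 < ram w := by
  have hl := lies w
  exact Nat.pos_of_ne_zero (Ideal.IsDedekindDomain.ramificationIdx'_ne_zero_of_liesOver _ v.ne_bot)


end

section more
variable {K : Type} [Field K] [NumberField K] {N : Type} [Field N] [NumberField N] [Algebra K N]

theorem card_nm' (v : HeightOneSpectrum (𝓞 K)) : Nat.card (𝓞 K ⧸ v.asIdeal) = nm v := rfl

theorem mk_ne {v : HeightOneSpectrum (𝓞 K)} {x : 𝓞 K} (hx : x ∉ v.asIdeal) :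
    Ideal.Quotient.mk v.asIdeal x ≠ 0 := by
  rwa [Ne, Ideal.Quotient.eq_zero_iff_mem]

/-- regrouping of the Euler product -/
theorem hasProd_fib {f : HeightOneSpectrum (𝓞 N) → ℂ} {a : ℂ} (h : HasProd f a) :
    HasProd (fun v : HeightOneSpectrum (𝓞 K) => ∏ w : Fib N v, f w.1) a := by
  have h1 := (Equiv.sigmaFiberEquiv
    (und (K := K) : HeightOneSpectrum (𝓞 N) → HeightOneSpectrum (𝓞 K))).hasProd_iff.2 h
  refine HasProd.sigma h1 fun v => ?_
  exact hasProd_fintype _

theorem exists_fib (v : HeightOneSpectrum (𝓞 K)) (hd : 0 < Module.finrank K N) :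
    Nonempty (Fib N v) := by
  by_contra h
  rw [not_nonempty_iff] at h
  have h1 := sum_fib (N := N) v
  rw [Finset.univ_eq_empty, Finset.sum_empty] at h1
  omega

/-- a place of degree one: every element is congruent to an element of `K` -/
theorem surj_one {v : HeightOneSpectrum (𝓞 K)} (w : Fib N v) (h : fdeg w = 1) (y : 𝓞 N) :
    ∃ x : 𝓞 K, y - algebraMap (𝓞 K) (𝓞 N) x ∈ w.1.asIdeal := by
  have hb : Function.Surjective (algebraMap (𝓞 K ⧸ v.asIdeal) (𝓞 N ⧸ w.1.asIdeal)) := by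
    have hinj := (algebraMap (𝓞 K ⧸ v.asIdeal) (𝓞 N ⧸ w.1.asIdeal)).injective
    have hc : Nat.card (𝓞 K ⧸ v.asIdeal) = Nat.card (𝓞 N ⧸ w.1.asIdeal) := by
      rw [card_nm', card_nm', nm_fib w, h, pow_one]
    exact ((Nat.bijective_iff_injective_and_card _).2 ⟨hinj, hc⟩).2
  obtain ⟨x, hx⟩ := hb (Ideal.Quotient.mk w.1.asIdeal y)
  obtain ⟨x, rfl⟩ := Ideal.Quotient.mk_surjective x
  refine ⟨x, ?_⟩
  rw [← Ideal.Quotient.eq_zero_iff_mem, map_sub, ← hx, algFib_mk, sub_self]

/-- the place moved by an automorphism -/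
noncomputable def mv {v : HeightOneSpectrum (𝓞 K)} (τ : 𝓞 N ≃ₐ[𝓞 K] 𝓞 N) (w : Fib N v) : Fib N v :=
  ⟨⟨w.1.asIdeal.comap (τ : 𝓞 N →+* 𝓞 N), w.1.isPrime.comap _, by
      intro h
      obtain ⟨y, hy, hy0⟩ := Submodule.exists_mem_ne_zero_of_ne_bot w.1.ne_bot
      have h1 : τ.symm y ∈ w.1.asIdeal.comap (τ : 𝓞 N →+* 𝓞 N) := by
        rw [Ideal.mem_comap]
        show τ (τ.symm y) ∈ w.1.asIdeal
        rw [τ.apply_symm_apply]
        exact hy
      rw [h, Ideal.mem_bot] at h1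
      exact hy0 ((map_eq_zero_iff _ τ.symm.injective).1 h1)⟩, by
    apply HeightOneSpectrum.ext
    have h2 := congrArg HeightOneSpectrum.asIdeal w.2
    rw [← h2]
    ext x
    show τ (algebraMap (𝓞 K) (𝓞 N) x) ∈ w.1.asIdeal ↔ algebraMap (𝓞 K) (𝓞 N) x ∈ w.1.asIdeal
    rw [τ.commutes]⟩

theorem mem_mv {v : HeightOneSpectrum (𝓞 K)} (τ : 𝓞 N ≃ₐ[𝓞 K] 𝓞 N) (w : Fib N v) (y : 𝓞 N) :
    y ∈ (mv τ w).1.asIdeal ↔ τ y ∈ w.1.asIdeal := Iff.rfl

/-- one place with `e f ≥ 2` in a quadratic extension -/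
theorem one_fib {v : HeightOneSpectrum (𝓞 K)} (h2f : Module.finrank K N = 2) (w : Fib N v)
    (hw : 2 ≤ ram w * fdeg w) : (∀ w' : Fib N v, w' = w) ∧ ram w * fdeg w = 2 := by
  have h1 := sum_fib (N := N) v
  rw [h2f, ← Finset.add_sum_erase univ _ (mem_univ w)] at h1
  have h2 : ∀ w' ∈ univ.erase w, False := by
    intro w' hw'
    have h4 : ram w' * fdeg w' ≤ ∑ x ∈ univ.erase w, ram x * fdeg x :=
      Finset.single_le_sum (f := fun x : Fib N v => ram x * fdeg x) (fun _ _ => Nat.zero_le _) hw'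
    have h5 : 0 < ram w' * fdeg w' := Nat.mul_pos (ram_pos w') (fdeg_pos w')
    omega
  refine ⟨fun w' => ?_, ?_⟩
  · by_contra h
    exact h2 w' (mem_erase.2 ⟨h, mem_univ _⟩)
  · have h4 : ∑ x ∈ univ.erase w, ram x * fdeg x = 0 :=
      Finset.sum_eq_zero fun x hx => (h2 x hx).elim
    omega

/-- two places in a quadratic extension -/
theorem two_fib {v : HeightOneSpectrum (𝓞 K)} (h2f : Module.finrank K N = 2) {w w' : Fib N v}
    (hne : w' ≠ w) : (univ : Finset (Fib N v)) = {w, w'} ∧ (ram w = 1 ∧ fdeg w = 1) ∧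
      (ram w' = 1 ∧ fdeg w' = 1) := by
  have h1 := sum_fib (N := N) v
  have p1 : 1 ≤ ram w * fdeg w := Nat.mul_pos (ram_pos w) (fdeg_pos w)
  have p2 : 1 ≤ ram w' * fdeg w' := Nat.mul_pos (ram_pos w') (fdeg_pos w')
  have hsub : ∀ T : Finset (Fib N v), ∑ x ∈ T, ram x * fdeg x ≤ 2 := fun T => by
    rw [← h2f, ← h1]
    exact Finset.sum_le_sum_of_subset (subset_univ _)
  have h2 := hsub {w, w'}
  rw [Finset.sum_pair hne.symm] at h2
  refine ⟨?_, ?_, ?_⟩
  · refine (Finset.eq_univ_iff_forall.2 fun x => ?_).symm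
    by_contra hx
    rw [mem_insert, mem_singleton, not_or] at hx
    have h3 := hsub {x, w, w'}
    rw [Finset.sum_insert (by simp [hx.1, hx.2]), Finset.sum_pair hne.symm] at h3
    have h4 : 1 ≤ ram x * fdeg x := Nat.mul_pos (ram_pos x) (fdeg_pos x)
    omega
  · have : ram w * fdeg w = 1 := by omega
    exact ⟨Nat.eq_one_of_mul_eq_one_right this, Nat.eq_one_of_mul_eq_one_left this⟩
  · have : ram w' * fdeg w' = 1 := by omega
    exact ⟨Nat.eq_one_of_mul_eq_one_right this, Nat.eq_one_of_mul_eq_one_left this⟩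

end more

end Pool.Agent.H691.MI
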