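import Pool.Agent.W165.CE.FF

/-!
# The points of `y² = x³ - r² x` over finite fields and their quadratic extensions

After `Pool/Agent/W165/CE/FF` (helper165).
-/

set_option autoImplicit false
set_option linter.unusedSectionVars false

namespace Pool.Agent.H691.MI

open Polynomial Finset
open Pool.Agent.H341R2.Sharp
open Pool.Agent.H82R3.EK (luc luc_eq card_points)
open W165.CE (wei wei_natDegree wei_monic T_luc A_two aeval_wei hasse)

/-- the number of the affine points of `y² = x³ - r² x` -/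
noncomputable def Nk {k : Type} [Field k] (r : k) : ℕ :=
  Nat.card {P : k × k // P.2 ^ 2 = P.1 ^ 3 - r ^ 2 * P.1}

theorem Nk_eq {k : Type} [Field k] [Fintype k] [DecidableEq k] (hk : ringChar k ≠ 2) (r : k) :
    (Nk r : ℤ) = Fintype.card k + ∑ x : k, quadraticChar k (x ^ 3 - r ^ 2 * x) :=
  card_points hk fun x => x ^ 3 - r ^ 2 * x

theorem Nk_wei {k : Type} [Field k] (r : k) :
    Nat.card {x : k × k // x.2 ^ 2 = x.1 ^ 3 + (-r ^ 2) * x.1 + 0} = Nk r := by
  unfold Nk
  have e : ∀ x : k × k, (x.2 ^ 2 = x.1 ^ 3 + (-r ^ 2) * x.1 + 0) ↔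
      (x.2 ^ 2 = x.1 ^ 3 - r ^ 2 * x.1) := fun x => by
    have : x.1 ^ 3 + (-r ^ 2) * x.1 + 0 = x.1 ^ 3 - r ^ 2 * x.1 := by ring
    rw [this]
  exact Nat.card_congr (Equiv.subtypeEquivRight e)

/-- the number of points over an extension -/
theorem ct_ext {F : Type} [Field F] [Fintype F] (hF : ringChar F ≠ 2) {r : F} (hr : r ≠ 0)
    (E : Type) [Field E] [Fintype E] [Algebra F E] :
    (Fintype.card E : ℤ) - Nk (algebraMap F E r) =
      luc ((Fintype.card F : ℤ) - Nk r) (Fintype.card F) (Module.finrank F E) := by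
  classical
  have hd : 4 * (-r ^ 2) ^ 3 + 27 * (0 : F) ^ 2 ≠ 0 := by
    have h2 : (2 : F) ≠ 0 := Ring.two_ne_zero hF
    have e : 4 * (-r ^ 2) ^ 3 + 27 * (0 : F) ^ 2 = -(2 ^ 2 * r ^ 6) := by ring
    rw [e, neg_ne_zero]
    exact mul_ne_zero (pow_ne_zero _ h2) (pow_ne_zero _ hr)
  have key : ∀ {E : Type} [Field E] [Fintype E] [Algebra F E] [DecidableEq E],
      (Fintype.card E : ℤ) - Nk (algebraMap F E r) =
      - T (wei (-r ^ 2) (0 : F)) (Module.finrank F E) := by
    intro E _ _ _ _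
    have hE : ringChar E ≠ 2 := by
      rwa [← Algebra.ringChar_eq F E]
    rw [Nk_eq hE, T_eq_sum (E := E) hF]
    have : ∀ x : E, aeval x (wei (-r ^ 2) (0 : F)) = x ^ 3 - (algebraMap F E r) ^ 2 * x := by
      intro x
      rw [aeval_wei, map_neg, map_pow, map_zero]
      ring
    simp_rw [this]
    ring
  have h1 := key (E := F)
  rw [Module.finrank_self] at h1
  have h1' : (Fintype.card F : ℤ) - Nk r = -T (wei (-r ^ 2) (0 : F)) 1 := by
    rw [← h1]
    rfl
  rw [key (E := E), h1']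
  have hfin : Module.Finite F E := Module.Finite.of_finite
  have hpos : 0 < Module.finrank F E := Module.finrank_pos
  obtain ⟨n, hn⟩ := Nat.exists_eq_succ_of_ne_zero hpos.ne'
  rw [hn, Nat.succ_eq_add_one, T_luc hF (wei_natDegree _ _) (wei_monic _ _) n, A_two hF _ _ hd]
  ring

/-- the twist by `u` -/
theorem ct_mul {k : Type} [Field k] [Fintype k] [DecidableEq k] (hk : ringChar k ≠ 2) (r : k) {u : k}
    (hu : u ≠ 0) :
    (Fintype.card k : ℤ) - Nk (r * u) = quadraticChar k u * ((Fintype.card k : ℤ) - Nk r) := by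
  rw [Nk_eq hk, Nk_eq hk]
  have h1 : ∑ x : k, quadraticChar k (x ^ 3 - (r * u) ^ 2 * x) =
      quadraticChar k u * ∑ x : k, quadraticChar k (x ^ 3 - r ^ 2 * x) := by
    rw [← Equiv.sum_comp (Equiv.mulLeft₀ u hu), Finset.mul_sum]
    refine Finset.sum_congr rfl fun x _ => ?_
    have e : ((Equiv.mulLeft₀ u hu) x) ^ 3 - (r * u) ^ 2 * ((Equiv.mulLeft₀ u hu) x) =
        u ^ 2 * (u * (x ^ 3 - r ^ 2 * x)) := by
      show (u * x) ^ 3 - (r * u) ^ 2 * (u * x) = _
      ring
    rw [e, map_mul, map_mul, map_pow, quadraticChar_sq_one hu, one_mul]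
  rw [h1]
  ring

theorem ct_sq {k : Type} [Field k] [Fintype k] (hk : ringChar k ≠ 2) (r : k) {z : k}
    (hz : z ≠ 0) : Nk (r * z ^ 2) = Nk r := by
  classical
  have h := ct_mul hk r (u := z ^ 2) (pow_ne_zero 2 hz)
  rw [quadraticChar_sq_one' hz] at h
  have : (Nk (r * z ^ 2) : ℤ) = Nk r := by linarith
  exact_mod_cast this

theorem ct_ns {k : Type} [Field k] [Fintype k] (hk : ringChar k ≠ 2) (r : k) {u : k}
    (hu : u ≠ 0) (hns : ¬ IsSquare u) :
    (Fintype.card k : ℤ) - Nk (r * u) = -((Fintype.card k : ℤ) - Nk r) := by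
  classical
  have h := ct_mul hk r hu
  have h2 : quadraticChar k u = -1 := by
    rw [quadraticChar_neg_one_iff_not_isSquare]
    exact hns
  rw [h, h2]
  ring

/-- Hasse's bound -/
theorem ct_hasse {k : Type} [Field k] [Fintype k] (hk : ringChar k ≠ 2) (r : k) :
    ((Fintype.card k : ℤ) - Nk r) ^ 2 ≤ 4 * Fintype.card k := by
  classical
  have h := hasse hk (-r ^ 2) (0 : k)
  rw [Nk_wei] at h
  have h1 : (((Fintype.card k : ℤ) - Nk r : ℤ) : ℝ) ^ 2 ≤ 4 * Fintype.card k := by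
    push_cast
    rw [← sq_abs]
    have h2 : |(Fintype.card k : ℝ) - (Nk r : ℝ)| ^ 2 ≤
        (2 * Real.sqrt (Fintype.card k : ℝ)) ^ 2 := by
      refine pow_le_pow_left₀ (abs_nonneg _) ?_ 2
      push_cast at h
      exact h
    have h3 : (2 * Real.sqrt (Fintype.card k : ℝ)) ^ 2 = 4 * (Fintype.card k : ℝ) := by
      rw [mul_pow, Real.sq_sqrt (Nat.cast_nonneg _)]
      norm_num
    rw [h3] at h2
    exact h2
  exact_mod_cast h1

/-- the eigenvalue -/
theorem ex_eig (a : ℤ) (q : ℕ) (h : a ^ 2 ≤ 4 * q) : ∃ x : ℂ, (a : ℂ) = x + (starRingEnd ℂ) x ∧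
    x * (starRingEnd ℂ) x = (q : ℂ) := by
  have h1 : (0 : ℝ) ≤ 4 * q - a ^ 2 := by
    have : ((a ^ 2 : ℤ) : ℝ) ≤ ((4 * q : ℤ) : ℝ) := by exact_mod_cast h
    push_cast at this
    linarith
  refine ⟨⟨(a : ℝ) / 2, Real.sqrt (4 * q - a ^ 2) / 2⟩, ?_, ?_⟩
  · apply Complex.ext
    · simp
    · simp
  · apply Complex.ext
    · simp only [Complex.mul_re, Complex.conj_re, Complex.conj_im, Complex.natCast_re]
      have h2 := Real.mul_self_sqrt h1
      linear_combination (1 / 4) * h2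
    · simp only [Complex.mul_im, Complex.conj_re, Complex.conj_im, Complex.natCast_im]
      ring

end Pool.Agent.H691.MI
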