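import Pool.Agent.Run7.h691.MI.Fib
import Pool.Agent.Run7.h691.MI.Pts
import Pool.Agent.Y696.Hss

/-!
# The local factors of `y² = x³ - δ² x` and one quadratic step

After `Pool/Agent/Run7/h707/TE/{Loc,Lf,Step}` (helper707), which treat cubic extensions and
`y² + δ y = x³`.
-/

set_option autoImplicit false
set_option linter.unusedVariables false
set_option linter.unusedSectionVars false
set_option linter.style.haveILetI false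

open scoped Classical

namespace Pool.Agent.H691.MI

open Finset NumberField IsDedekindDomain
open Pool.Agent.H921R2.TatePole (nm two_le_nm)
open Pool.Agent.Y696 (HBd)
open Pool.Agent.H82R3.EK (luc)

section nf
variable {K : Type} [Field K] [NumberField K]

/-- `δ` is a unit at `v` up to squares -/
def GoodAt (δ : 𝓞 K) (v : HeightOneSpectrum (𝓞 K)) : Prop :=
  ∃ r z z' : 𝓞 K, z ≠ 0 ∧ r ∉ v.asIdeal ∧ δ * z ^ 2 = r * z' ^ 2

theorem cast_two (v : HeightOneSpectrum (𝓞 K)) (h2 : (2 : 𝓞 K) ∉ v.asIdeal) :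
    (2 : 𝓞 K ⧸ v.asIdeal) ≠ 0 := by
  intro h
  apply h2
  rw [← Ideal.Quotient.eq_zero_iff_mem, map_ofNat]
  exact h

theorem char_v (v : HeightOneSpectrum (𝓞 K)) (h2 : (2 : 𝓞 K) ∉ v.asIdeal) :
    ringChar (𝓞 K ⧸ v.asIdeal) ≠ 2 := by
  intro h
  apply cast_two v h2
  have h3 := ringChar.Nat.cast_ringChar (R := 𝓞 K ⧸ v.asIdeal)
  rw [h] at h3
  exact_mod_cast h3

theorem good_iff {δ : 𝓞 K} (hδ : δ ≠ 0) (v : HeightOneSpectrum (𝓞 K)) :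
    GoodAt δ v ↔ 2 ∣ od v δ := by
  constructor
  · rintro ⟨r, z, z', hz, hr, h⟩
    have hr0 : r ≠ 0 := by
      rintro rfl
      exact hr (zero_mem _)
    have hz' : z' ≠ 0 := by
      rintro rfl
      rw [zero_pow two_ne_zero, mul_zero] at h
      exact mul_ne_zero hδ (pow_ne_zero 2 hz) h
    have h1 := congrArg (od v) h
    rw [od_mul v hδ (pow_ne_zero 2 hz), od_mul v hr0 (pow_ne_zero 2 hz'), od_pow v hz, od_pow v hz',
      od_of_notMem v hr] at h1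
    omega
  · rintro ⟨k, hk⟩
    obtain ⟨π, hπ, hπ1⟩ := ex_unif v
    have h1 : od v ((π ^ k) ^ 2) = 2 * k := by
      rw [od_pow v (pow_ne_zero k hπ), od_pow v hπ, hπ1, mul_one]
    obtain ⟨s, t, hs, ht, hot⟩ := ex_div v (pow_ne_zero 2 (pow_ne_zero k hπ)) hδ
      (by rw [h1, hk])
    have ht0 : t ≠ 0 := by
      rintro rfl
      rw [mul_zero] at ht
      have hs0 : s ≠ 0 := by
        rintro rfl
        exact hs (zero_mem _)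
      exact mul_ne_zero hs0 hδ ht
    have htv : t ∉ v.asIdeal := by
      rw [← od_zero v ht0]
      omega
    refine ⟨t * s, s, π ^ k, ?_, ?_, ?_⟩
    · rintro rfl
      exact hs (zero_mem _)
    · intro h2
      rcases v.isPrime.mem_or_mem h2 with h2 | h2
      · exact htv h2
      · exact hs h2
    · linear_combination s * ht

/-- the number of the affine points over the residue field -/
noncomputable def Nv (v : HeightOneSpectrum (𝓞 K)) (r : 𝓞 K) : ℕ :=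
  Nk (Ideal.Quotient.mk v.asIdeal r)

theorem fcard (v : HeightOneSpectrum (𝓞 K)) [Fintype (𝓞 K ⧸ v.asIdeal)] :
    Fintype.card (𝓞 K ⧸ v.asIdeal) = nm v := by
  rw [← Nat.card_eq_fintype_card]
  rfl

theorem Nv_sq {v : HeightOneSpectrum (𝓞 K)} (h2 : (2 : 𝓞 K) ∉ v.asIdeal) (r : 𝓞 K) {z : 𝓞 K}
    (hz : z ∉ v.asIdeal) : Nv v (r * z ^ 2) = Nv v r := by
  letI : Fintype (𝓞 K ⧸ v.asIdeal) := Fintype.ofFinite _
  unfold Nv
  rw [map_mul, map_pow]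
  exact ct_sq (char_v v h2) _ (mk_ne hz)

theorem Nv_ns {v : HeightOneSpectrum (𝓞 K)} (h2 : (2 : 𝓞 K) ∉ v.asIdeal) (r : 𝓞 K) {u : 𝓞 K}
    (hu : u ∉ v.asIdeal) (hns : ¬ ∃ x : 𝓞 K, x ^ 2 - u ∈ v.asIdeal) :
    (nm v : ℤ) - Nv v (r * u) = -((nm v : ℤ) - Nv v r) := by
  letI : Fintype (𝓞 K ⧸ v.asIdeal) := Fintype.ofFinite _
  unfold Nv
  rw [← fcard v, map_mul]
  refine ct_ns (char_v v h2) _ (mk_ne hu) ?_
  rintro ⟨y, hy⟩
  obtain ⟨y, rfl⟩ := Ideal.Quotient.mk_surjective y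
  apply hns
  refine ⟨y, ?_⟩
  rw [← Ideal.Quotient.eq_zero_iff_mem, map_sub, map_pow, hy]
  ring

theorem Nv_congr {v : HeightOneSpectrum (𝓞 K)} {r r' : 𝓞 K} (h : r - r' ∈ v.asIdeal) :
    Nv v r = Nv v r' := by
  unfold Nv
  rw [(Ideal.Quotient.mk_eq_mk_iff_sub_mem r r').2 h]

/-- the number of points does not depend on the model -/
theorem nv_wd {v : HeightOneSpectrum (𝓞 K)} (h2 : (2 : 𝓞 K) ∉ v.asIdeal)
    {δ r r' z₁ y₁ z₂ y₂ : 𝓞 K}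
    (hδ : δ ≠ 0) (hr : r ∉ v.asIdeal) (hr' : r' ∉ v.asIdeal) (hz₁ : z₁ ≠ 0) (hz₂ : z₂ ≠ 0)
    (h₁ : δ * z₁ ^ 2 = r * y₁ ^ 2) (h₂ : δ * z₂ ^ 2 = r' * y₂ ^ 2) : Nv v r = Nv v r' := by
  have hr0 : r ≠ 0 := by
    rintro rfl
    exact hr (zero_mem _)
  have hr0' : r' ≠ 0 := by
    rintro rfl
    exact hr' (zero_mem _)
  have hy₁ : y₁ ≠ 0 := by
    rintro rfl
    rw [zero_pow two_ne_zero, mul_zero] at h₁
    exact mul_ne_zero hδ (pow_ne_zero 2 hz₁) h₁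
  have hy₂ : y₂ ≠ 0 := by
    rintro rfl
    rw [zero_pow two_ne_zero, mul_zero] at h₂
    exact mul_ne_zero hδ (pow_ne_zero 2 hz₂) h₂
  obtain ⟨a, ha⟩ : ∃ a, a = y₁ * z₂ := ⟨_, rfl⟩
  obtain ⟨b, hb⟩ : ∃ b, b = y₂ * z₁ := ⟨_, rfl⟩
  have ha0 : a ≠ 0 := by rw [ha]; exact mul_ne_zero hy₁ hz₂
  have hb0 : b ≠ 0 := by rw [hb]; exact mul_ne_zero hy₂ hz₁
  have hab : r * a ^ 2 = r' * b ^ 2 := by
    rw [ha, hb]
    linear_combination z₁ ^ 2 * h₂ - z₂ ^ 2 * h₁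
  have hod : od v a = od v b := by
    have := congrArg (od v) hab
    rw [od_mul v hr0 (pow_ne_zero 2 ha0), od_mul v hr0' (pow_ne_zero 2 hb0), od_pow v ha0,
      od_pow v hb0, od_of_notMem v hr, od_of_notMem v hr'] at this
    omega
  obtain ⟨s, t, hs, ht, hot⟩ := ex_div v ha0 hb0 hod.le
  have ht0 : t ≠ 0 := by
    rintro rfl
    rw [mul_zero] at ht
    have hs0 : s ≠ 0 := by
      rintro rfl
      exact hs (zero_mem _)
    exact mul_ne_zero hs0 hb0 ht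
  have htv : t ∉ v.asIdeal := by
    rw [← od_zero v ht0]
    omega
  have h5 : r * s ^ 2 = r' * t ^ 2 := by
    apply mul_left_cancel₀ (pow_ne_zero 2 ha0)
    have h6 : s ^ 2 * b ^ 2 = a ^ 2 * t ^ 2 := by rw [← mul_pow, ht, mul_pow]
    linear_combination s ^ 2 * hab + r' * h6
  rw [← Nv_sq h2 r hs, h5, Nv_sq h2 r' htv]

/-- the trace of the Frobenius on the invariants of inertia -/
noncomputable def tr (δ : 𝓞 K) (v : HeightOneSpectrum (𝓞 K)) : ℤ :=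
  if h : (2 : 𝓞 K) ∉ v.asIdeal ∧ GoodAt δ v then (nm v : ℤ) - Nv v h.2.choose else 0

/-- its determinant -/
noncomputable def dt (δ : 𝓞 K) (v : HeightOneSpectrum (𝓞 K)) : ℤ :=
  if (2 : 𝓞 K) ∉ v.asIdeal ∧ GoodAt δ v then (nm v : ℤ) else 0

/-- the local factor -/
noncomputable def lf (δ : 𝓞 K) (v : HeightOneSpectrum (𝓞 K)) (x : ℂ) : ℂ :=
  (1 - (tr δ v : ℂ) * x + (dt δ v : ℂ) * x ^ 2)⁻¹

theorem tr_val {v : HeightOneSpectrum (𝓞 K)} (h2 : (2 : 𝓞 K) ∉ v.asIdeal)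
    {δ r z z' : 𝓞 K} (hδ : δ ≠ 0) (hr : r ∉ v.asIdeal) (hz : z ≠ 0)
    (h : δ * z ^ 2 = r * z' ^ 2) :
    tr δ v = (nm v : ℤ) - Nv v r ∧ dt δ v = nm v := by
  have hg : (2 : 𝓞 K) ∉ v.asIdeal ∧ GoodAt δ v := ⟨h2, r, z, z', hz, hr, h⟩
  constructor
  · unfold tr
    rw [dif_pos hg]
    obtain ⟨z₂, z₂', hz₂, hr₂, h₂⟩ := hg.2.choose_spec
    rw [nv_wd h2 hδ hr₂ hr hz₂ hz h₂ h]
  · unfold dt
    rw [if_pos hg]

theorem lf_val {v : HeightOneSpectrum (𝓞 K)} (h2 : (2 : 𝓞 K) ∉ v.asIdeal)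
    {δ r z z' : 𝓞 K} (hδ : δ ≠ 0) (hr : r ∉ v.asIdeal) (hz : z ≠ 0)
    (h : δ * z ^ 2 = r * z' ^ 2) (x : ℂ) :
    lf δ v x = (1 - (((nm v : ℤ) - Nv v r : ℤ) : ℂ) * x + (nm v : ℂ) * x ^ 2)⁻¹ := by
  obtain ⟨h1, h2⟩ := tr_val h2 hδ hr hz h
  unfold lf
  rw [h1, h2]
  norm_cast

theorem lf_two {v : HeightOneSpectrum (𝓞 K)} (h2 : (2 : 𝓞 K) ∈ v.asIdeal) (δ : 𝓞 K) (x : ℂ) :
    lf δ v x = 1 := by
  unfold lf tr dt
  rw [dif_neg (fun h => h.1 h2), if_neg (fun h => h.1 h2)]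
  simp

theorem lf_bad {v : HeightOneSpectrum (𝓞 K)} {δ : 𝓞 K} (hδ : δ ≠ 0) (h : ¬ 2 ∣ od v δ) (x : ℂ) :
    lf δ v x = 1 := by
  have hg : ¬ ((2 : 𝓞 K) ∉ v.asIdeal ∧ GoodAt δ v) := fun h' => h ((good_iff hδ v).1 h'.2)
  unfold lf tr dt
  rw [dif_neg hg, if_neg hg]
  simp

/-- the local data are as they should be -/
theorem hbd_lf (δ : 𝓞 K) (v : HeightOneSpectrum (𝓞 K)) : HBd (tr δ v) (dt δ v) (nm v) := by
  by_cases hg : (2 : 𝓞 K) ∉ v.asIdeal ∧ GoodAt δ v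
  · letI : Fintype (𝓞 K ⧸ v.asIdeal) := Fintype.ofFinite _
    have h1 : tr δ v = (nm v : ℤ) - Nv v hg.2.choose := by
      unfold tr
      rw [dif_pos hg]
    have h2 : dt δ v = (nm v : ℤ) := by
      unfold dt
      rw [if_pos hg]
    have h3 : (tr δ v) ^ 2 ≤ 4 * (nm v : ℤ) := by
      rw [h1]
      have := ct_hasse (char_v v hg.1) (Ideal.Quotient.mk v.asIdeal hg.2.choose)
      rw [fcard v] at this
      exact this
    obtain ⟨x, hx1, hx2⟩ := ex_eig _ _ h3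
    refine Or.inr ⟨x, hx1, ?_, hx2⟩
    rw [h2, hx2]
    norm_cast
  · left
    unfold tr dt
    rw [dif_neg hg, if_neg hg]
    exact ⟨rfl, rfl⟩

end nf

section ext
variable {K : Type} [Field K] [NumberField K] {N : Type} [Field N] [NumberField N] [Algebra K N]

theorem two_notMem {v : HeightOneSpectrum (𝓞 K)} (h2 : (2 : 𝓞 K) ∉ v.asIdeal) (w : Fib N v) :
    (2 : 𝓞 N) ∉ w.1.asIdeal := by
  have := (mem_fib w (2 : 𝓞 K)).not.2 h2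
  rwa [map_ofNat] at this

/-- the number of points at a place above -/
theorem Nv_fib {v : HeightOneSpectrum (𝓞 K)} (h2 : (2 : 𝓞 K) ∉ v.asIdeal) (w : Fib N v) {r : 𝓞 K}
    (hr : r ∉ v.asIdeal) : (nm w.1 : ℤ) - Nv w.1 (algebraMap (𝓞 K) (𝓞 N) r) =
      luc ((nm v : ℤ) - Nv v r) (nm v) (fdeg w) := by
  letI : Fintype (𝓞 K ⧸ v.asIdeal) := Fintype.ofFinite _
  letI : Fintype (𝓞 N ⧸ w.1.asIdeal) := Fintype.ofFinite _
  have h := ct_ext (char_v v h2) (mk_ne hr) (𝓞 N ⧸ w.1.asIdeal)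
  rw [fcard v, fcard w.1, algFib_mk] at h
  exact h

/-- the local factor at a place above, of degree one -/
theorem lf_one {v : HeightOneSpectrum (𝓞 K)} (h2 : (2 : 𝓞 K) ∉ v.asIdeal) (w : Fib N v)
    (hf : fdeg w = 1) {δ z z' : 𝓞 N}
    {r : 𝓞 K} (hδ : δ ≠ 0) (hr : r ∉ v.asIdeal) (hz : z ≠ 0)
    (h : δ * z ^ 2 = algebraMap (𝓞 K) (𝓞 N) r * z' ^ 2) (x : ℂ) :
    lf δ w.1 x = (1 - (((nm v : ℤ) - Nv v r : ℤ) : ℂ) * x + (nm v : ℂ) * x ^ 2)⁻¹ := by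
  have hnm : nm w.1 = nm v := by rw [nm_fib w, hf, pow_one]
  rw [lf_val (two_notMem h2 w) hδ ((mem_fib w r).not.2 hr) hz h, Nv_fib h2 w hr, hf, hnm]
  rfl

/-- the local factor at a place above, of degree two -/
theorem lf_deg2 {v : HeightOneSpectrum (𝓞 K)} (h2 : (2 : 𝓞 K) ∉ v.asIdeal) (w : Fib N v)
    (hf : fdeg w = 2) {δ z z' : 𝓞 N}
    {r : 𝓞 K} (hδ : δ ≠ 0) (hr : r ∉ v.asIdeal) (hz : z ≠ 0)
    (h : δ * z ^ 2 = algebraMap (𝓞 K) (𝓞 N) r * z' ^ 2) (x : ℂ) :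
    lf δ w.1 x = (1 - ((((nm v : ℤ) - Nv v r) ^ 2 - 2 * nm v : ℤ) : ℂ) * x +
      (nm v : ℂ) ^ 2 * x ^ 2)⁻¹ := by
  have hnm : nm w.1 = nm v ^ 2 := by rw [nm_fib w, hf]
  rw [lf_val (two_notMem h2 w) hδ ((mem_fib w r).not.2 hr) hz h, Nv_fib h2 w hr, hf, hnm]
  have e : luc ((nm v : ℤ) - Nv v r) (nm v) 2 = ((nm v : ℤ) - Nv v r) ^ 2 - 2 * nm v := by
    simp only [luc]
    ring
  rw [e]
  push_cast
  rfl

/-- the square root of a model -/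
theorem ex_root {b u z z' : 𝓞 K} {θ : 𝓞 N} (hθ : θ ^ 2 = algebraMap (𝓞 K) (𝓞 N) b)
    (hz' : z' ≠ 0) (h : b * z ^ 2 = u * z' ^ 2) :
    ∃ θ' : 𝓞 N, θ' ^ 2 = algebraMap (𝓞 K) (𝓞 N) u ∧
      θ' * algebraMap (𝓞 K) (𝓞 N) z' = θ * algebraMap (𝓞 K) (𝓞 N) z := by
  have hz0 : algebraMap (𝓞 K) (𝓞 N) z' ≠ 0 := alg_ne hz'
  have hzN : ((algebraMap (𝓞 K) (𝓞 N) z' : 𝓞 N) : N) ≠ 0 := by
    rwa [Ne, RingOfIntegers.coe_eq_zero_iff]
  set t : N := ((θ * algebraMap (𝓞 K) (𝓞 N) z : 𝓞 N) : N) / ((algebraMap (𝓞 K) (𝓞 N) z' : 𝓞 N) : N)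
    with ht
  have h1 : (θ * algebraMap (𝓞 K) (𝓞 N) z) ^ 2 =
      algebraMap (𝓞 K) (𝓞 N) u * (algebraMap (𝓞 K) (𝓞 N) z') ^ 2 := by
    rw [mul_pow, hθ, ← map_pow, ← map_pow, ← map_mul, ← map_mul, h]
  have h2 : t ^ 2 = ((algebraMap (𝓞 K) (𝓞 N) u : 𝓞 N) : N) := by
    rw [ht, div_pow, div_eq_iff (pow_ne_zero 2 hzN)]
    exact_mod_cast congrArg (fun x : 𝓞 N => (x : N)) h1
  have hint : IsIntegral ℤ t := by
    refine IsIntegral.of_pow (n := 2) (by norm_num) ?_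
    rw [h2]
    exact RingOfIntegers.isIntegral_coe _
  obtain ⟨θ', hθ'⟩ : ∃ θ' : 𝓞 N, (θ' : N) = t := ⟨⟨t, hint⟩, rfl⟩
  refine ⟨θ', ?_, ?_⟩
  · apply RingOfIntegers.ext
    rw [← h2, ← hθ']
    push_cast
    rfl
  · apply RingOfIntegers.ext
    have : (θ' : N) * ((algebraMap (𝓞 K) (𝓞 N) z' : 𝓞 N) : N) =
        ((θ * algebraMap (𝓞 K) (𝓞 N) z : 𝓞 N) : N) := by
      rw [hθ', ht, div_mul_cancel₀ _ hzN]
    rw [← this]
    push_cast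
    rfl

theorem cpow_two (n : ℕ) (s : ℂ) : (((n ^ 2 : ℕ)) : ℂ) ^ s = ((n : ℂ) ^ s) ^ 2 := by
  have h1 : ((n ^ 2 : ℕ) : ℂ) = (n : ℂ) * (n : ℂ) := by
    push_cast
    ring
  rw [h1, Complex.natCast_mul_natCast_cpow]
  ring

section step
variable (h2f : Module.finrank K N = 2) {b : 𝓞 K}
    (hb : b ≠ 0) {θ : 𝓞 N} (hθ : θ ^ 2 = algebraMap (𝓞 K) (𝓞 N) b) (τ : 𝓞 N ≃ₐ[𝓞 K] 𝓞 N)
    (hτ : τ θ = -θ) {δ : 𝓞 K} (hδ : δ ≠ 0)
    {v : HeightOneSpectrum (𝓞 K)} (s : ℂ) (h2 : (2 : 𝓞 K) ∉ v.asIdeal)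

include h2f hb hθ hδ h2 in
/-- the ramified case -/
theorem step_ram (hvb : ¬ 2 ∣ od v b) :
    ∏ w : Fib N v, lf (algebraMap (𝓞 K) (𝓞 N) δ) w.1 ((nm w.1 : ℂ) ^ s) =
      lf δ v ((nm v : ℂ) ^ s) * lf (δ * b) v ((nm v : ℂ) ^ s) := by
  have hδN : algebraMap (𝓞 K) (𝓞 N) δ ≠ 0 := alg_ne hδ
  have hθ0 : θ ≠ 0 := by
    rintro rfl
    rw [zero_pow two_ne_zero] at hθ
    exact alg_ne hb hθ.symm
  have hδb : δ * b ≠ 0 := mul_ne_zero hδ hb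
  have hodb : od v (δ * b) = od v δ + od v b := od_mul v hδ hb
  obtain ⟨w₀⟩ := exists_fib (N := N) v (by omega)
  have h1 : 2 * od w₀.1 θ = ram w₀ * od v b := by
    rw [← od_pow w₀.1 hθ0, hθ, od_fib w₀ hb]
  have h4 : 2 ∣ ram w₀ := ((Nat.prime_two.dvd_mul).1 (Dvd.intro _ h1)).resolve_right hvb
  have hr2 : 2 ≤ ram w₀ := Nat.le_of_dvd (ram_pos w₀) h4
  obtain ⟨huni, hef⟩ := one_fib h2f w₀ (by
    have := fdeg_pos w₀
    nlinarith)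
  have hf : fdeg w₀ = 1 := by
    have := fdeg_pos w₀
    nlinarith
  have hnm : nm w₀.1 = nm v := by rw [nm_fib w₀, hf, pow_one]
  rw [Fintype.prod_eq_single w₀ fun w hw => absurd (huni w) hw, hnm]
  by_cases hd : 2 ∣ od v δ
  · rw [lf_bad hδb (by rw [hodb]; omega), mul_one]
    obtain ⟨r, z, z', hz, hr, h⟩ := (good_iff hδ v).2 hd
    rw [lf_val h2 hδ hr hz h, lf_one h2 w₀ hf (z := algebraMap (𝓞 K) (𝓞 N) z)
      (z' := algebraMap (𝓞 K) (𝓞 N) z') hδN hr (alg_ne hz)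
      (by rw [← map_pow, ← map_mul, h, map_mul, map_pow])]
  · rw [lf_bad hδ hd, one_mul]
    obtain ⟨r, z, z', hz, hr, h⟩ := (good_iff hδb v).2 (by rw [hodb]; omega)
    rw [lf_val h2 hδb hr hz h, lf_one h2 w₀ hf (z := algebraMap (𝓞 K) (𝓞 N) z * θ)
      (z' := algebraMap (𝓞 K) (𝓞 N) z') hδN hr (mul_ne_zero (alg_ne hz) hθ0) ?_]
    have h5 := congrArg (algebraMap (𝓞 K) (𝓞 N)) h
    rw [map_mul, map_mul, map_mul, map_pow, map_pow, ← hθ] at h5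
    rw [← h5]
    ring

include h2f hb hδ h2 in
/-- the inert case -/
theorem step_inert {u z z' : 𝓞 K} (hz : z ≠ 0) (hu : u ∉ v.asIdeal) (hbz : b * z ^ 2 = u * z' ^ 2)
    {θ' : 𝓞 N} (hθ' : θ' ^ 2 = algebraMap (𝓞 K) (𝓞 N) u)
    (hns : ¬ ∃ x : 𝓞 K, x ^ 2 - u ∈ v.asIdeal) :
    ∏ w : Fib N v, lf (algebraMap (𝓞 K) (𝓞 N) δ) w.1 ((nm w.1 : ℂ) ^ s) =
      lf δ v ((nm v : ℂ) ^ s) * lf (δ * b) v ((nm v : ℂ) ^ s) := by
  have hδN : algebraMap (𝓞 K) (𝓞 N) δ ≠ 0 := alg_ne hδ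
  have hδb : δ * b ≠ 0 := mul_ne_zero hδ hb
  have hodb : 2 ∣ od v b := (good_iff hb v).1 ⟨u, z, z', hz, hu, hbz⟩
  have hod2 : od v (δ * b) = od v δ + od v b := od_mul v hδ hb
  obtain ⟨w₀⟩ := exists_fib (N := N) v (by omega)
  have hf1 : fdeg w₀ ≠ 1 := by
    intro hw
    obtain ⟨x, hx⟩ := surj_one w₀ hw θ'
    apply hns
    refine ⟨x, ?_⟩
    rw [← mem_fib w₀, map_sub, map_pow, ← hθ']
    have e : algebraMap (𝓞 K) (𝓞 N) x ^ 2 - θ' ^ 2 = (θ' - algebraMap (𝓞 K) (𝓞 N) x) *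
        (-(θ' + algebraMap (𝓞 K) (𝓞 N) x)) := by ring
    rw [e]
    exact Ideal.mul_mem_right _ _ hx
  have hf2 : 2 ≤ fdeg w₀ := by
    have := fdeg_pos w₀
    omega
  obtain ⟨huni, hef⟩ := one_fib h2f w₀ (by
    have := ram_pos w₀
    nlinarith)
  have hf : fdeg w₀ = 2 := by
    have := ram_pos w₀
    nlinarith
  have hram : ram w₀ = 1 := by
    rw [hf] at hef
    omega
  have hnm : nm w₀.1 = nm v ^ 2 := by rw [nm_fib w₀, hf]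
  rw [Fintype.prod_eq_single w₀ fun w hw => absurd (huni w) hw]
  by_cases hvδ : 2 ∣ od v δ
  · obtain ⟨r, y, y', hy, hr, h⟩ := (good_iff hδ v).2 hvδ
    have hru : r * u ∉ v.asIdeal := fun h' =>
      (v.isPrime.mem_or_mem h').elim hr hu
    have hrel : (δ * b) * (y * z) ^ 2 = (r * u) * (y' * z') ^ 2 := by
      calc (δ * b) * (y * z) ^ 2 = (δ * y ^ 2) * (b * z ^ 2) := by ring
        _ = _ := by rw [h, hbz]; ring
    rw [lf_val h2 hδ hr hy h, lf_val h2 hδb hru (mul_ne_zero hy hz) hrel, Nv_ns h2 r hu hns,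
      lf_deg2 h2 w₀ hf (z := algebraMap (𝓞 K) (𝓞 N) y) (z' := algebraMap (𝓞 K) (𝓞 N) y')
      hδN hr (alg_ne hy) (by rw [← map_pow, ← map_mul, h, map_mul, map_pow]), hnm, cpow_two,
      ← mul_inv]
    congr 1
    push_cast
    ring
  · rw [lf_bad hδN (by rw [od_fib w₀ hδ, hram, one_mul]; exact hvδ), lf_bad hδ hvδ,
      lf_bad hδb (by rw [hod2]; omega), mul_one]

include h2f hb hδ h2 in
/-- the split case -/
theorem step_split {u z z' : 𝓞 K} (hz : z ≠ 0) (hu : u ∉ v.asIdeal) (hbz : b * z ^ 2 = u * z' ^ 2)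
    {θ' : 𝓞 N} (hθ' : θ' ^ 2 = algebraMap (𝓞 K) (𝓞 N) u) (hτ' : τ θ' = -θ')
    {x : 𝓞 K} (hx : x ^ 2 - u ∈ v.asIdeal) :
    ∏ w : Fib N v, lf (algebraMap (𝓞 K) (𝓞 N) δ) w.1 ((nm w.1 : ℂ) ^ s) =
      lf δ v ((nm v : ℂ) ^ s) * lf (δ * b) v ((nm v : ℂ) ^ s) := by
  have hδN : algebraMap (𝓞 K) (𝓞 N) δ ≠ 0 := alg_ne hδ
  have hδb : δ * b ≠ 0 := mul_ne_zero hδ hb
  have hodb : 2 ∣ od v b := (good_iff hb v).1 ⟨u, z, z', hz, hu, hbz⟩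
  have hod2 : od v (δ * b) = od v δ + od v b := od_mul v hδ hb
  obtain ⟨w₀⟩ := exists_fib (N := N) v (by omega)
  have hxv : x ∉ v.asIdeal := by
    intro h
    apply hu
    have := (v.asIdeal).sub_mem (Ideal.pow_mem_of_mem _ h 2 (by norm_num)) hx
    rwa [sub_sub_cancel] at this
  have huw : θ' ∉ w₀.1.asIdeal := by
    intro h
    apply hu
    rw [← mem_fib w₀, ← hθ']
    exact Ideal.pow_mem_of_mem _ h 2 (by norm_num)
  have h2w : (2 : 𝓞 N) ∉ w₀.1.asIdeal := two_notMem h2 w₀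
  have hne : mv τ w₀ ≠ w₀ := by
    intro h
    -- `θ' ≡ ± x`
    have h1 : (θ' - algebraMap (𝓞 K) (𝓞 N) x) * (θ' + algebraMap (𝓞 K) (𝓞 N) x) ∈
        w₀.1.asIdeal := by
      have e : (θ' - algebraMap (𝓞 K) (𝓞 N) x) * (θ' + algebraMap (𝓞 K) (𝓞 N) x) =
          -(algebraMap (𝓞 K) (𝓞 N) (x ^ 2 - u)) := by
        rw [map_sub, map_pow, ← hθ']
        ring
      rw [e]
      exact neg_mem ((mem_fib w₀ _).2 hx)
    have key : ∀ y : 𝓞 K, θ' - algebraMap (𝓞 K) (𝓞 N) y ∈ w₀.1.asIdeal → False := by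
      intro y hy
      have h3 : θ' - algebraMap (𝓞 K) (𝓞 N) y ∈ (mv τ w₀).1.asIdeal := by rw [h]; exact hy
      rw [mem_mv, map_sub, hτ', τ.commutes] at h3
      have h4 := w₀.1.asIdeal.sub_mem hy h3
      have e : θ' - algebraMap (𝓞 K) (𝓞 N) y - (-θ' - algebraMap (𝓞 K) (𝓞 N) y) = 2 * θ' := by
        ring
      rw [e] at h4
      exact (w₀.1.isPrime.mem_or_mem h4).elim h2w huw
    rcases w₀.1.isPrime.mem_or_mem h1 with h5 | h5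
    · exact key x h5
    · refine key (-x) ?_
      rw [map_neg, sub_neg_eq_add]
      exact h5
  obtain ⟨huniv, ⟨e1, f1⟩, ⟨e2, f2⟩⟩ := two_fib h2f hne
  rw [huniv, Finset.prod_pair hne.symm]
  have hone : ∀ w : Fib N v, ram w = 1 → fdeg w = 1 →
      lf (algebraMap (𝓞 K) (𝓞 N) δ) w.1 ((nm w.1 : ℂ) ^ s) = lf δ v ((nm v : ℂ) ^ s) := by
    intro w hram hf
    have hnm : nm w.1 = nm v := by rw [nm_fib w, hf, pow_one]
    rw [hnm]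
    by_cases hvδ : 2 ∣ od v δ
    · obtain ⟨r, y, y', hy, hr, h⟩ := (good_iff hδ v).2 hvδ
      rw [lf_val h2 hδ hr hy h, lf_one h2 w hf (z := algebraMap (𝓞 K) (𝓞 N) y)
        (z' := algebraMap (𝓞 K) (𝓞 N) y')
        hδN hr (alg_ne hy) (by rw [← map_pow, ← map_mul, h, map_mul, map_pow])]
    · rw [lf_bad hδN (by rw [od_fib w hδ, hram, one_mul]; exact hvδ), lf_bad hδ hvδ]
  rw [hone _ e1 f1, hone _ e2 f2]
  congr 1
  by_cases hvδ : 2 ∣ od v δ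
  · obtain ⟨r, y, y', hy, hr, h⟩ := (good_iff hδ v).2 hvδ
    have hru : r * u ∉ v.asIdeal := fun h' =>
      (v.isPrime.mem_or_mem h').elim hr hu
    have hrel : (δ * b) * (y * z) ^ 2 = (r * u) * (y' * z') ^ 2 := by
      calc (δ * b) * (y * z) ^ 2 = (δ * y ^ 2) * (b * z ^ 2) := by ring
        _ = _ := by rw [h, hbz]; ring
    have hN : Nv v (r * u) = Nv v r := by
      rw [← Nv_sq h2 r hxv]
      refine Nv_congr ?_
      rw [← mul_sub]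
      refine Ideal.mul_mem_left _ _ ?_
      rw [← neg_sub]
      exact neg_mem hx
    rw [lf_val h2 hδ hr hy h, lf_val h2 hδb hru (mul_ne_zero hy hz) hrel, hN]
  · rw [lf_bad hδ hvδ, lf_bad hδb (by rw [hod2]; omega)]

end step

/-- **One quadratic step: the local factors.** -/
theorem step_loc (h2f : Module.finrank K N = 2) {b : 𝓞 K}
    (hb : b ≠ 0) {θ : 𝓞 N} (hθ : θ ^ 2 = algebraMap (𝓞 K) (𝓞 N) b) (τ : 𝓞 N ≃ₐ[𝓞 K] 𝓞 N)
    (hτ : τ θ = -θ) {δ : 𝓞 K} (hδ : δ ≠ 0)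
    (v : HeightOneSpectrum (𝓞 K)) (s : ℂ) :
    ∏ w : Fib N v, lf (algebraMap (𝓞 K) (𝓞 N) δ) w.1 ((nm w.1 : ℂ) ^ s) =
      lf δ v ((nm v : ℂ) ^ s) * lf (δ * b) v ((nm v : ℂ) ^ s) := by
  by_cases h2 : (2 : 𝓞 K) ∈ v.asIdeal
  · rw [Finset.prod_eq_one fun w _ => ?_, lf_two h2, lf_two h2, mul_one]
    refine lf_two ?_ _ _
    have := (mem_fib w (2 : 𝓞 K)).2 h2
    rwa [map_ofNat] at this
  by_cases hvb : 2 ∣ od v b
  · obtain ⟨u, z, z', hz, hu, hbz⟩ := (good_iff hb v).2 hvb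
    have hz' : z' ≠ 0 := by
      rintro rfl
      rw [zero_pow two_ne_zero, mul_zero] at hbz
      exact mul_ne_zero hb (pow_ne_zero 2 hz) hbz
    obtain ⟨θ', hθ', hrel⟩ := ex_root hθ hz' hbz
    have hτ' : τ θ' = -θ' := by
      have h1 := congrArg τ hrel
      rw [map_mul, map_mul, τ.commutes, τ.commutes, hτ] at h1
      apply mul_right_cancel₀ (alg_ne (N := N) hz')
      rw [h1, neg_mul, neg_mul, ← hrel]
    by_cases hcu : ∃ x : 𝓞 K, x ^ 2 - u ∈ v.asIdeal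
    · obtain ⟨x, hx⟩ := hcu
      exact step_split h2f hb τ hδ s h2 hz hu hbz hθ' hτ' hx
    · exact step_inert h2f hb hδ s h2 hz hu hbz hθ' hcu
  · exact step_ram h2f hb hθ hδ s h2 hvb

end ext

end Pool.Agent.H691.MI
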